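import Pool.Agent.Helper36.X.R5
import Pool.Agent.Helper36.X.Res

/-!
# UW R4, R4', R5, without hypotheses
-/

set_option autoImplicit false
open MeasureTheory Set Filter Topology
open Pool.Agent.Helper69.UV (ww)
open Pool.Agent.Helper69.UW

namespace Pool.Agent.Helper36.X.H7

open Pool.Agent.Helper7.UW

/-- R4 -/
theorem WP_bd {δ : ℝ} (hδ : 0 < δ) (hδ1 : δ ≤ 1 / 32) : ∃ c0 T0 : ℝ, ∀ T c m v : ℝ, T0 ≤ T → Adm c0 T c m → |v| ≤ vv δ c m →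
    ∀ p ∈ PR δ T c m,
    (1 - δ) * rp T c v p ^ 2 * VV δ T c m v ≤ rp T c v p * WP δ T c m v p ∧
    |WP δ T c m v p| ≤ |rp T c v p| * VV δ T c m v :=
  Pool.Agent.Helper36.X.WP_bd_of hδ hδ1 (PR_facts hδ hδ1)

/-- R4' -/
theorem VV_exp {δ : ℝ} (hδ : 0 < δ) (hδ1 : δ ≤ 1 / 32) : ∃ c0 T0 : ℝ, ∀ T c m v : ℝ, T0 ≤ T → Adm c0 T c m → |v| ≤ vv δ c m →
    Real.exp (KK δ T c m v) / 2 ≤ VV δ T c m v ∧ VV δ T c m v ≤ Real.exp (KK δ T c m v) :=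
  Pool.Agent.Helper36.X.VV_exp_of hδ hδ1 (PR_facts hδ hδ1)

/-- R5 -/
theorem prod_le_VV {δ : ℝ} (hδ : 0 < δ) (hδ1 : δ ≤ 1 / 32) : ∃ C c0 T0 : ℝ, 0 < C ∧ ∀ T c m v : ℝ, T0 ≤ T → Adm c0 T c m →
    |v| ≤ vv δ c m →
    ∏ p ∈ PR δ T c m, (1 + (2 + |rp T c v p|) ^ 2 / p + 2 * (2 + 2 * |rp T c v p|) ^ 2 / p ^ 2) ≤
      C * Real.exp (C * √m) * VV δ T c m v :=
  prod_le_VV_of hδ hδ1 (VV_exp hδ hδ1)

end Pool.Agent.Helper36.X.H7
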