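import Pool.Agent.Helper36.X.M4
import Pool.Agent.Helper68.UW.M3
import Pool.Agent.Helper25.UW.Bv
import Pool.Agent.Helper7.UW.R3
import Pool.Agent.Helper36.X.Close

/-!
# UW, block M4, without hypotheses
-/

set_option autoImplicit false

open Finset
open Pool.Agent.Helper69.UW

namespace Pool.Agent.Helper90.UW
end Pool.Agent.Helper90.UW

namespace Pool.Agent.Helper36.X.H90

open Pool.Agent.Helper90.UW

/-- **M4** -/
theorem arith {δ : ℝ} (hδ : 0 < δ) (hδ1 : δ ≤ 1 / 32) : ∃ C c0 T0 : ℝ, 0 < C ∧ ∀ T c m v : ℝ, T0 ≤ T → Adm c0 T c m →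
    |v| ≤ vv δ c m →
    ∀ σ, 1 / 2 + 1 / Real.log T ≤ σ → σ ≤ 3 / 4 → ∀ q : ℕ → ℝ, (∀ n, |q n| ≤ |rr δ T c m v n| * (n : ℝ) ^ (σ - 1 / 2)) →
    Summable (fun j : ℕ => ((∑ h ∈ j.divisors, gg T (PR δ T c m) h * q (j / h)) - q j) ^ 2 * (j : ℝ) ^ (-2 * σ)) ∧
    ∑' j : ℕ, ((∑ h ∈ j.divisors, gg T (PR δ T c m) h * q (j / h)) - q j) ^ 2 * (j : ℝ) ^ (-2 * σ) ≤
      C * T ^ (-(σ - 1 / 2 - 1 / Real.log T) / 16) * Real.exp (C * √m) * VV δ T c m v :=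
  arith_of (fun hQ hT _ hn hle => gg_gap hQ hT hn hle) (fun hQ _ _ h1 h2 h3 h4 => gg_mul hQ h1 h2 h3 h4)
    (fun n => gb_le n) (Pool.Agent.Helper36.X.H7.prod_le_VV hδ hδ1)
    (Pool.Agent.Helper25.UW.bv_of (fun h1 h2 => Pool.Agent.Helper7.UW.PR_facts h1 h2) hδ hδ1)

end Pool.Agent.Helper36.X.H90

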