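import Pool.Agent.Helper7.UW.R3

/-! # Project X: KKb -/

set_option autoImplicit false
open MeasureTheory Set Filter Topology
open Pool.Agent.Helper69.UV (ww)
open Pool.Agent.Helper69.UW

namespace Pool.Agent.Helper36.X

/-- KKb, from R3' (any `v`) -/
theorem KK_bd {δ : ℝ} (hδ : 0 < δ) (hδ1 : δ ≤ 1 / 32) : ∃ c0 T0 : ℝ, ∀ T c m v : ℝ, T0 ≤ T → Adm c0 T c m →
    (1 / 2 - δ) * (v ^ 2 * ll c m) ≤ KK δ T c m v ∧ KK δ T c m v ≤ (1 / 2 + δ) * (v ^ 2 * ll c m) := by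
  obtain ⟨c1, T1, h⟩ := Pool.Agent.Helper7.UW.PR_mass hδ hδ1
  refine ⟨c1, T1, fun T c m v hT hadm => ?_⟩
  obtain ⟨h1, h2⟩ := h T c m hT hadm
  have h3 : KK δ T c m v = v ^ 2 * ∑ p ∈ PR δ T c m, sw T c p ^ 2 / p := by
    unfold KK
    rw [Finset.mul_sum]
    refine Finset.sum_congr rfl fun p _ => ?_
    unfold rp
    ring
  have hv : 0 ≤ v ^ 2 := sq_nonneg v
  rw [h3]
  constructor
  · calc (1 / 2 - δ) * (v ^ 2 * ll c m) = v ^ 2 * ((1 / 2 - δ) * ll c m) := by ring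
      _ ≤ _ := mul_le_mul_of_nonneg_left h1 hv
  · calc _ ≤ v ^ 2 * ((1 / 2 + δ) * ll c m) := mul_le_mul_of_nonneg_left h2 hv
      _ = _ := by ring

end Pool.Agent.Helper36.X
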