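import Pool.Agent.Helper60.UV.Gen
import Pool.Agent.Helper36.X.Res

/-!
# UW R7, R8, R9: moments of the resonator
-/

set_option autoImplicit false
open MeasureTheory Set Filter Topology
open Pool.Agent.Helper57.Zeta Pool.Agent.Helper57.LH Pool.Agent.Helper57.ED Pool.Agent.Helper54.LG
open Pool.Agent.Helper93.UG (zc IsOrd sp)
open Pool.Agent.Helper69.UG (pt NX XX NR NM WW near far)
open Pool.Agent.Helper69.UV (ww HH)
open Pool.Agent.Helper69.UW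
open Pool.Agent.Helper60.UV (Rr Vr Ar Ar_nonneg Ar_le mass cosm fourth mult_gen growth_pow)

namespace Pool.Agent.Helper60.UW
end Pool.Agent.Helper60.UW

namespace Pool.Agent.Helper36.X.H60

open Pool.Agent.Helper60.UW

variable {δ : ℝ}

lemma WW_pos {T : ℝ} (hT : 0 < T) : 0 < WW T := by unfold WW; positivity

lemma NR_le {T : ℝ} (hT : 0 ≤ T) : (NR T : ℝ) ≤ T ^ (1 / 8 : ℝ) := Nat.floor_le (by positivity)

lemma one_le_NR {T : ℝ} (hT : 1 ≤ T) : 1 ≤ NR T := by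
  unfold NR
  rw [Nat.one_le_floor_iff]
  exact Real.one_le_rpow hT (by norm_num)

lemma rr_ne {T c m v : ℝ} {n : ℕ} (h : rr δ T c m v n ≠ 0) :
    Squarefree n ∧ n.primeFactors ⊆ PR δ T c m ∧ n.primeFactors.card ≤ KR δ m := by
  unfold rr at h
  by_contra hcon
  exact h (if_neg hcon)

/-- the support. -/
theorem rr_supp' {T c m v : ℝ} (hδ : 0 < δ) (hT : 1 ≤ T) (hm : 0 < m) {n : ℕ} (h : rr δ T c m v n ≠ 0) :
    1 ≤ n ∧ n ≤ NR T ∧ Squarefree n := by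
  obtain ⟨h1, h2, h3⟩ := rr_ne h
  have hT0 : 0 < T := by linarith
  refine ⟨Nat.one_le_iff_ne_zero.mpr h1.ne_zero, Nat.le_floor ?_, h1⟩
  have e : (n : ℝ) = ∏ p ∈ n.primeFactors, (p : ℝ) := by
    conv_lhs => rw [← Nat.prod_primeFactors_of_squarefree h1]
    push_cast
    rfl
  have hb : ∀ p ∈ n.primeFactors, (p : ℝ) ≤ T ^ (δ / (64 * m)) := by
    intro p hp
    have h4 := h2 hp
    unfold PR at h4
    have h5 := (Finset.mem_filter.mp h4).1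
    rw [Finset.mem_range, Nat.lt_succ_iff, Nat.le_floor_iff (by positivity)] at h5
    exact h5
  have hone : 1 ≤ T ^ (δ / (64 * m)) := Real.one_le_rpow hT (by positivity)
  calc (n : ℝ) ≤ (T ^ (δ / (64 * m))) ^ n.primeFactors.card := by
        rw [e, ← Finset.prod_const]
        exact Finset.prod_le_prod (fun p _ => by positivity) hb
    _ ≤ (T ^ (δ / (64 * m))) ^ KR δ m := pow_le_pow_right₀ hone h3
    _ = T ^ (δ / (64 * m) * KR δ m) := by rw [← Real.rpow_natCast, ← Real.rpow_mul hT0.le]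
    _ ≤ T ^ (1 / 8 : ℝ) := by
        apply Real.rpow_le_rpow_of_exponent_le hT
        have h6 : (KR δ m : ℝ) ≤ 8 * m / δ := Nat.floor_le (by positivity)
        calc δ / (64 * m) * KR δ m ≤ δ / (64 * m) * (8 * m / δ) := by gcongr
          _ = 1 / 8 := by field_simp; norm_num

lemma Ar_rr {T c m v : ℝ} (hT : 1 < T) (h : ∀ n, |rr δ T c m v n| ≤ T ^ (1 / 192 : ℝ)) :
    Ar (rr δ T c m v) (NR T) ≤ T := by
  have hT0 : 0 < T := by linarith
  calc Ar (rr δ T c m v) (NR T) ≤ NR T * T ^ (1 / 192 : ℝ) := Ar_le h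
    _ ≤ T ^ (1 / 8 : ℝ) * T ^ (1 / 192 : ℝ) := by gcongr; exact NR_le hT0.le
    _ = T ^ (1 / 8 + 1 / 192 : ℝ) := by rw [← Real.rpow_add hT0]
    _ ≤ T ^ (1 : ℝ) := Real.rpow_le_rpow_of_exponent_le hT.le (by norm_num)
    _ = T := Real.rpow_one T

/-- the error term for the lengths used here. -/
lemma exp_WW {T : ℝ} (hT : 1 < T) {M : ℕ} (hM1 : 1 ≤ M) (hM : (M : ℝ) ≤ T ^ (1 / 4 : ℝ)) :
    Real.exp (-(WW T / M)) ≤ Real.exp (-(T ^ (1 / 2 : ℝ))) := by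
  have hT0 : 0 < T := by linarith
  have hMR : (0:ℝ) < M := by exact_mod_cast hM1
  apply Real.exp_le_exp.mpr
  apply neg_le_neg
  rw [le_div_iff₀ hMR]
  calc T ^ (1 / 2 : ℝ) * M ≤ T ^ (1 / 2 : ℝ) * T ^ (1 / 4 : ℝ) := by gcongr
    _ = T ^ (3 / 4 : ℝ) := by rw [← Real.rpow_add hT0]; norm_num
    _ ≤ WW T := by
        unfold WW
        exact Real.rpow_le_rpow_of_exponent_le hT.le (by norm_num)

lemma NR_le2 {T : ℝ} (hT : 1 < T) : (NR T : ℝ) ≤ T ^ (1 / 4 : ℝ) :=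
  (NR_le (by linarith)).trans (Real.rpow_le_rpow_of_exponent_le hT.le (by norm_num))

/-- the statement of R2 -/
def R2 : Prop := ∀ {δ : ℝ}, 0 < δ → δ ≤ 1 / 32 → ∃ c0 T0 : ℝ, ∀ T c m v : ℝ, T0 ≤ T → Adm c0 T c m → |v| ≤ vv δ c m →
    ∀ n, |rr δ T c m v n| ≤ T ^ (1 / 192 : ℝ) ∧ 1 ≤ VV δ T c m v

/-- R8: mass -/
theorem wmass_of (rr_bd : R2) (hδ : 0 < δ) (hδ1 : δ ≤ 1 / 32) : ∃ c0 T0 : ℝ, ∀ T c m v : ℝ, T0 ≤ T → Adm c0 T c m → |v| ≤ vv δ c m →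
    ∀ τ : ℝ, Integrable (wt δ T c m v τ) ∧ |(∫ t, wt δ T c m v τ t) - VV δ T c m v| ≤ VV δ T c m v / T := by
  obtain ⟨c0, T0, hR⟩ := rr_bd hδ hδ1
  obtain ⟨T1, hT1, hg⟩ := growth_pow (show (0:ℝ) < 1 / 2 by norm_num) 2
  refine ⟨c0, max T0 (max T1 2), fun T c m v hT hc hv τ => ?_⟩
  have hTT : 1 < T := by
    have := (le_max_right _ _).trans ((le_max_right _ _).trans hT)
    linarith
  have hT0' : 0 < T := by linarith
  have hr := hR T c m v ((le_max_left _ _).trans hT) hc hv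
  have hV := (hr 0).2
  have hm := mass (rr δ T c m v) (NR T) (WW_pos hT0') τ
  refine ⟨hm.1, ?_⟩
  have h2 : |(∫ t, wt δ T c m v τ t) - VV δ T c m v| ≤
      Ar (rr δ T c m v) (NR T) ^ 2 * Real.exp (-(WW T / NR T)) := hm.2
  have h3 := Ar_rr hTT (fun n => (hr n).1)
  have h4 := Ar_nonneg (rr δ T c m v) (NR T)
  have h6 := exp_WW hTT (one_le_NR hTT.le) (NR_le2 hTT)
  have h7 := hg T ((le_max_left _ _).trans ((le_max_right _ _).trans hT))
  calc |(∫ t, wt δ T c m v τ t) - VV δ T c m v| ≤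
      Ar (rr δ T c m v) (NR T) ^ 2 * Real.exp (-(WW T / NR T)) := h2
    _ ≤ T ^ 2 * Real.exp (-(T ^ (1 / 2 : ℝ))) := by gcongr
    _ ≤ 1 / T := h7
    _ ≤ VV δ T c m v / T := by gcongr

/-- `r(nk) = 0` if `n` is a prime power, not a prime of the resonator. -/
lemma rr_pp {T c m v : ℝ} {n k : ℕ} (hn : IsPrimePow n) (hnP : n ∉ PR δ T c m) : rr δ T c m v (n * k) = 0 := by
  by_contra h0
  obtain ⟨h1, h2, _⟩ := rr_ne h0
  have h3 : Squarefree n := h1.squarefree_of_dvd (Dvd.intro _ rfl)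
  obtain ⟨p, j, hp, hk, rfl⟩ := hn
  have hp' : p.Prime := hp.nat_prime
  have hk1 : j = 1 := by
    by_contra hne
    have h4 : p * p ∣ p ^ j := by
      rw [← sq]
      exact pow_dvd_pow p (by omega)
    have := h3 p h4
    exact hp'.one_lt.ne' (Nat.isUnit_iff.mp this)
  rw [hk1, pow_one] at hnP h1 h2
  exact hnP (h2 (Nat.mem_primeFactors.mpr ⟨hp', Dvd.intro _ rfl, h1.ne_zero⟩))

/-- R9: mean of a cosine -/
theorem ecos_of (rr_bd : R2) (hδ : 0 < δ) (hδ1 : δ ≤ 1 / 32) : ∃ c0 T0 : ℝ, ∀ T c m v : ℝ, T0 ≤ T → Adm c0 T c m → |v| ≤ vv δ c m →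
    ∀ τ u : ℝ, ∀ n : ℕ, IsPrimePow n → (n : ℝ) ≤ Real.exp (XX T m) →
    |(∫ t, wt δ T c m v τ t * Real.cos ((t + u) * Real.log n)) -
      (if n ∈ PR δ T c m then WP δ T c m v n / √n * Real.cos (u * Real.log n) else 0)| ≤ 1 / T := by
  obtain ⟨c0, T0, hR⟩ := rr_bd hδ hδ1
  obtain ⟨T1, hT1, hg⟩ := growth_pow (show (0:ℝ) < 1 / 2 by norm_num) 2
  refine ⟨max c0 8, max T0 (max T1 2), fun T c m v hT hc hv τ u n hn hnX => ?_⟩
  have hTT : 1 < T := by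
    have := (le_max_right _ _).trans ((le_max_right _ _).trans hT)
    linarith
  have hT0' : 0 < T := by linarith
  have hm8 : 8 ≤ m := (hc.mono (le_max_right c0 8)).le_m (by norm_num)
  have hm0 : 0 < m := by linarith
  have hr := hR T c m v ((le_max_left _ _).trans hT) (hc.mono (le_max_left _ _)) hv
  have hn1 : 1 ≤ n := hn.one_lt.le
  have hnR : (1:ℝ) ≤ n := by exact_mod_cast hn1
  have hnT : (n : ℝ) ≤ T ^ (1 / 8 : ℝ) := by
    refine hnX.trans ?_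
    rw [Real.rpow_def_of_pos hT0']
    apply Real.exp_le_exp.mpr
    unfold XX
    have h1 : 0 < Real.log T := Real.log_pos hTT
    rw [div_le_iff₀ hm0]
    nlinarith
  have hM : ((NR T * n : ℕ) : ℝ) ≤ T ^ (1 / 4 : ℝ) := by
    rw [Nat.cast_mul]
    calc (NR T : ℝ) * n ≤ T ^ (1 / 8 : ℝ) * T ^ (1 / 8 : ℝ) :=
          mul_le_mul (NR_le hT0'.le) hnT (by positivity) (by positivity)
      _ = T ^ (1 / 4 : ℝ) := by rw [← Real.rpow_add hT0']; norm_num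
  have hk := cosm (rr δ T c m v) (NR T) (fun k hk => ⟨(rr_supp' hδ hTT.le hm0 hk).1, (rr_supp' hδ hTT.le hm0 hk).2.1⟩)
    (WW_pos hT0') τ u hn1
  have h3 := Ar_rr hTT (fun n => (hr n).1)
  have h4 := Ar_nonneg (rr δ T c m v) (NR T)
  have h6 := exp_WW hTT (Nat.mul_pos (one_le_NR hTT.le) hn1) hM
  have h7 := hg T ((le_max_left _ _).trans ((le_max_right _ _).trans hT))
  have h8 : Ar (rr δ T c m v) (NR T) ^ 2 * Real.exp (-(WW T / ((NR T * n : ℕ) : ℝ))) ≤ 1 / T := by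
    calc _ ≤ T ^ 2 * Real.exp (-(T ^ (1 / 2 : ℝ))) := by gcongr
      _ ≤ 1 / T := h7
  have e1 : (∑ k ∈ Finset.Icc 1 (NR T), rr δ T c m v k * rr δ T c m v (n * k) / k) / √n * Real.cos (u * Real.log n) =
      (if n ∈ PR δ T c m then Pool.Agent.Helper69.UW.WP δ T c m v n / √n * Real.cos (u * Real.log n) else 0) := by
    split_ifs with hP
    · rfl
    · rw [Finset.sum_eq_zero fun k _ => by rw [rr_pp hn hP]; simp]
      simp
  rw [e1] at hk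
  exact hk.trans h8

/-- R7: fourth moment, any centre -/
theorem m4_of (rr_bd : R2) (hδ : 0 < δ) (hδ1 : δ ≤ 1 / 32) : ∃ A c0 T0 : ℝ, ∀ T c m v : ℝ, T0 ≤ T → Adm c0 T c m → |v| ≤ vv δ c m →
    ∀ τ : ℝ, Integrable (fun t => PW (WW T) (t - τ) * ‖RR δ T c m v t‖ ^ 4) ∧
    ∫ t, PW (WW T) (t - τ) * ‖RR δ T c m v t‖ ^ 4 ≤ Real.exp (A * c) * VV δ T c m v ^ 2 := by
  obtain ⟨c0, T0, hR⟩ := rr_bd hδ hδ1
  obtain ⟨T1, hT1, hg⟩ := growth_pow (show (0:ℝ) < 1 / 2 by norm_num) 4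
  refine ⟨16 / δ + 1, max c0 1, max T0 (max T1 2), fun T c m v hT hc hv τ => ?_⟩
  have hTT : 1 < T := by
    have := (le_max_right _ _).trans ((le_max_right _ _).trans hT)
    linarith
  have hT0' : 0 < T := by linarith
  have hc1 : 1 ≤ c := by linarith [hc.1]
  have hmc : m ≤ c := (hc.mono (le_max_right c0 1)).m_le_c le_rfl
  have hm0 : 0 < m := by linarith [hc.2.1]
  have hr := hR T c m v ((le_max_left _ _).trans hT) (hc.mono (le_max_left _ _)) hv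
  have hV := (hr 0).2
  have hK : ∀ n, rr δ T c m v n ≠ 0 → Squarefree n ∧ n.primeFactors.card ≤ KR δ m := fun n hn =>
    ⟨(rr_ne hn).1, (rr_ne hn).2.2⟩
  have hf := fourth (rr δ T c m v) (NR T) (4 ^ KR δ m)
    (fun i h1 h2 => mult_gen hK _ (fun n hn => (Finset.mem_filter.mp hn).2) i h1 h2) (WW_pos hT0') τ
  refine ⟨hf.1, ?_⟩
  have h2 : ∫ t, PW (WW T) (t - τ) * ‖RR δ T c m v t‖ ^ 4 ≤ ((4 ^ KR δ m : ℕ) : ℝ) * VV δ T c m v ^ 2 +
      Ar (rr δ T c m v) (NR T) ^ 4 * Real.exp (-(WW T / ((NR T * NR T : ℕ) : ℝ))) := hf.2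
  have h3 := Ar_rr hTT (fun n => (hr n).1)
  have h4 := Ar_nonneg (rr δ T c m v) (NR T)
  have hM : ((NR T * NR T : ℕ) : ℝ) ≤ T ^ (1 / 4 : ℝ) := by
    rw [Nat.cast_mul]
    calc (NR T : ℝ) * NR T ≤ T ^ (1 / 8 : ℝ) * T ^ (1 / 8 : ℝ) :=
          mul_le_mul (NR_le hT0'.le) (NR_le hT0'.le) (by positivity) (by positivity)
      _ = T ^ (1 / 4 : ℝ) := by rw [← Real.rpow_add hT0']; norm_num
  have hN1 := one_le_NR hTT.le
  have h6 := exp_WW hTT (Nat.mul_pos hN1 hN1) hM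
  have h7 := hg T ((le_max_left _ _).trans ((le_max_right _ _).trans hT))
  have h8 : Ar (rr δ T c m v) (NR T) ^ 4 * Real.exp (-(WW T / ((NR T * NR T : ℕ) : ℝ))) ≤ VV δ T c m v ^ 2 := by
    calc _ ≤ T ^ 4 * Real.exp (-(T ^ (1 / 2 : ℝ))) := by gcongr
      _ ≤ 1 / T := h7
      _ ≤ 1 := (div_le_one hT0').mpr hTT.le
      _ ≤ VV δ T c m v ^ 2 := one_le_pow₀ hV
  have h9 : ((4 ^ KR δ m : ℕ) : ℝ) ≤ Real.exp (16 * c / δ) := by
    rw [Nat.cast_pow]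
    have h10 : (4:ℝ) ≤ Real.exp 2 := by
      have := Real.add_one_le_exp (1:ℝ)
      have h11 : Real.exp 2 = Real.exp 1 * Real.exp 1 := by rw [← Real.exp_add]; norm_num
      rw [h11]
      nlinarith
    calc (((4:ℕ) : ℝ)) ^ KR δ m ≤ (Real.exp 2) ^ KR δ m := by
          apply pow_le_pow_left₀ (by positivity)
          exact_mod_cast h10
      _ = Real.exp (KR δ m * 2) := by rw [← Real.exp_nat_mul]
      _ ≤ Real.exp (16 * c / δ) := by
          apply Real.exp_le_exp.mpr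
          have : (KR δ m : ℝ) ≤ 8 * m / δ := Nat.floor_le (by positivity)
          calc (KR δ m : ℝ) * 2 ≤ 8 * m / δ * 2 := by gcongr
            _ = 16 * m / δ := by ring
            _ ≤ 16 * c / δ := by gcongr
  have h10 : Real.exp (16 * c / δ) + 1 ≤ Real.exp ((16 / δ + 1) * c) := by
    have h11 : Real.exp ((16 / δ + 1) * c) = Real.exp (16 * c / δ) * Real.exp c := by
      rw [← Real.exp_add]
      congr 1
      ring
    have h12 := Real.add_one_le_exp c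
    have h13 := Real.one_le_exp (show 0 ≤ 16 * c / δ by positivity)
    rw [h11]
    nlinarith
  have hVsq : 0 ≤ VV δ T c m v ^ 2 := by positivity
  have h11 : ((4 ^ KR δ m : ℕ) : ℝ) * VV δ T c m v ^ 2 ≤ Real.exp (16 * c / δ) * VV δ T c m v ^ 2 := by gcongr
  have h12 : (Real.exp (16 * c / δ) + 1) * VV δ T c m v ^ 2 ≤ Real.exp ((16 / δ + 1) * c) * VV δ T c m v ^ 2 := by gcongr
  linarith

theorem R2_holds : R2 := fun h1 h2 => Pool.Agent.Helper36.X.rr_bd h1 h2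

/-- R7: fourth moment, any centre -/
theorem m4 (hδ : 0 < δ) (hδ1 : δ ≤ 1 / 32) : ∃ A c0 T0 : ℝ, ∀ T c m v : ℝ, T0 ≤ T → Adm c0 T c m → |v| ≤ vv δ c m →
    ∀ τ : ℝ, Integrable (fun t => PW (WW T) (t - τ) * ‖RR δ T c m v t‖ ^ 4) ∧
    ∫ t, PW (WW T) (t - τ) * ‖RR δ T c m v t‖ ^ 4 ≤ Real.exp (A * c) * VV δ T c m v ^ 2 := m4_of R2_holds hδ hδ1

/-- R8: mass -/
theorem wmass (hδ : 0 < δ) (hδ1 : δ ≤ 1 / 32) : ∃ c0 T0 : ℝ, ∀ T c m v : ℝ, T0 ≤ T → Adm c0 T c m → |v| ≤ vv δ c m →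
    ∀ τ : ℝ, Integrable (wt δ T c m v τ) ∧ |(∫ t, wt δ T c m v τ t) - VV δ T c m v| ≤ VV δ T c m v / T := wmass_of R2_holds hδ hδ1

/-- R9: mean of a cosine -/
theorem ecos (hδ : 0 < δ) (hδ1 : δ ≤ 1 / 32) : ∃ c0 T0 : ℝ, ∀ T c m v : ℝ, T0 ≤ T → Adm c0 T c m → |v| ≤ vv δ c m →
    ∀ τ u : ℝ, ∀ n : ℕ, IsPrimePow n → (n : ℝ) ≤ Real.exp (XX T m) →
    |(∫ t, wt δ T c m v τ t * Real.cos ((t + u) * Real.log n)) -
      (if n ∈ PR δ T c m then WP δ T c m v n / √n * Real.cos (u * Real.log n) else 0)| ≤ 1 / T := ecos_of R2_holds hδ hδ1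

end Pool.Agent.Helper36.X.H60
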