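import Pool.Agent.Helper57.UG.MmA
import Pool.Agent.Helper69.UW.Defs

/-!
# UW K5: the main term under the weight, all kernel scales

`|t - τ| ≤ T/2`: `MM = M + O(M/log T)`. Otherwise `|MM - M| ≤ |t - τ|^(1/32768)`, fourth moment of the resonator (R7)
and the tail of the Poisson kernel of width `T^(4095/4096)`.
-/

set_option autoImplicit false
open MeasureTheory Set Filter Topology
open Pool.Agent.Helper57.Zeta Pool.Agent.Helper57.LH Pool.Agent.Helper57.ED Pool.Agent.Helper54.LG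
open Pool.Agent.Helper69.UG (pt NX XX NR NM WW near far)
open Pool.Agent.Helper69.UV (ww HH)
open Pool.Agent.Helper69.UW
open Pool.Agent.Helper57.UG

namespace Pool.Agent.Helper57.UW
end Pool.Agent.Helper57.UW

namespace Pool.Agent.Helper36.X.H57

open Pool.Agent.Helper57.UW

/-! ### the tail of the Poisson kernel -/

private noncomputable def F57 (a b x : ℝ) : ℝ := indicator (Ioi a) (fun y => y ^ (b - 2)) x

private lemma F_nonneg57 {a b : ℝ} (ha : 0 < a) (x : ℝ) : 0 ≤ F57 a b x := by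
  unfold F57
  refine indicator_nonneg (fun y hy => ?_) x
  have : 0 < y := ha.trans hy
  positivity

private lemma F_int57 {a b : ℝ} (ha : 0 < a) (hb : b < 1) :
    Integrable (F57 a b) ∧ ∫ x, F57 a b x = a ^ (b - 1) / (1 - b) := by
  constructor
  · unfold F57
    rw [integrable_indicator_iff measurableSet_Ioi]
    exact integrableOn_Ioi_rpow_of_lt (by linarith) ha
  · unfold F57
    rw [integral_indicator measurableSet_Ioi, integral_Ioi_rpow_of_lt (by linarith) ha]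
    rw [show b - 2 + 1 = b - 1 by ring, show b - 1 = -(1 - b) by ring, neg_div_neg_eq]

/-! ### growth -/

private lemma grow57 (C : ℝ) (hC : 0 < C) : ∀ᶠ x : ℝ in atTop,
    C * (2 * x) ^ (1 / 65536 : ℝ) * (1 + Real.log (9 * x)) + Real.log (2 * x) ≤ x ^ (1 / 32768 : ℝ) := by
  have h1 : ∀ᶠ x : ℝ in atTop, Real.log x ≤ 1 / (8 * (C + 1)) * x ^ (1 / 131072 : ℝ) := by
    have h := (isLittleO_log_rpow_atTop (r := (1 / 131072 : ℝ)) (by norm_num)).def (c := 1 / (8 * (C + 1))) (by positivity)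
    filter_upwards [h, eventually_ge_atTop 1] with x hx hx1
    rw [Real.norm_of_nonneg (Real.log_nonneg hx1), Real.norm_of_nonneg (by positivity)] at hx
    exact hx
  have h2 : ∀ᶠ x : ℝ in atTop, 8 * (C + 1) * (1 + Real.log 9 + Real.log 2) ≤ x ^ (1 / 131072 : ℝ) :=
    (tendsto_rpow_atTop (by norm_num : (0:ℝ) < 1 / 131072)).eventually_ge_atTop _
  filter_upwards [h1, h2, eventually_ge_atTop 1] with x hx1 hx2 hx
  have hx0 : 0 < x := by linarith
  set y : ℝ := x ^ (1 / 131072 : ℝ) with hy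
  have hy1 : 1 ≤ y := Real.one_le_rpow hx (by norm_num)
  have hl9 : 0 ≤ Real.log 9 := Real.log_nonneg (by norm_num)
  have hl2 : 0 ≤ Real.log 2 := Real.log_nonneg (by norm_num)
  have e1 : Real.log (9 * x) = Real.log 9 + Real.log x := Real.log_mul (by norm_num) hx0.ne'
  have e2 : Real.log (2 * x) = Real.log 2 + Real.log x := Real.log_mul (by norm_num) hx0.ne'
  have e3 : (2 * x) ^ (1 / 65536 : ℝ) ≤ 2 * y ^ 2 := by
    rw [Real.mul_rpow (by norm_num) hx0.le]
    have a1 : (2:ℝ) ^ (1 / 65536 : ℝ) ≤ 2 := by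
      calc (2:ℝ) ^ (1 / 65536 : ℝ) ≤ 2 ^ (1:ℝ) := Real.rpow_le_rpow_of_exponent_le (by norm_num) (by norm_num)
        _ = 2 := Real.rpow_one _
    have a2 : x ^ (1 / 65536 : ℝ) = y ^ 2 := by
      rw [hy, ← Real.rpow_natCast (x ^ (1 / 131072 : ℝ)) 2, ← Real.rpow_mul hx0.le]
      congr 1; norm_num
    rw [a2]
    gcongr
  have e4 : x ^ (1 / 32768 : ℝ) = y ^ 4 := by
    rw [hy, ← Real.rpow_natCast (x ^ (1 / 131072 : ℝ)) 4, ← Real.rpow_mul hx0.le]
    congr 1; norm_num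
  have hlx : 0 ≤ Real.log x := Real.log_nonneg hx
  have hC1 : 0 < 8 * (C + 1) := by positivity
  have k1 : (C + 1) * (1 + Real.log 9 + Real.log 2) ≤ y / 8 := by
    rw [le_div_iff₀ (by norm_num)]; linarith
  have k2 : (C + 1) * Real.log x ≤ y / 8 := by
    calc (C + 1) * Real.log x ≤ (C + 1) * (1 / (8 * (C + 1)) * y) := by gcongr
      _ = y / 8 := by field_simp
  rw [e4, e1, e2]
  have k3 : C * (1 + (Real.log 9 + Real.log x)) ≤ y / 4 := by nlinarith
  have k4 : Real.log 2 + Real.log x ≤ y / 4 := by nlinarith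
  have k5 : C * (2 * x) ^ (1 / 65536 : ℝ) * (1 + (Real.log 9 + Real.log x)) ≤ 2 * y ^ 2 * (y / 4) := by
    calc C * (2 * x) ^ (1 / 65536 : ℝ) * (1 + (Real.log 9 + Real.log x))
        = (2 * x) ^ (1 / 65536 : ℝ) * (C * (1 + (Real.log 9 + Real.log x))) := by ring
      _ ≤ 2 * y ^ 2 * (y / 4) := by gcongr
  have k6 : y ^ 3 ≤ y ^ 4 := by
    calc y ^ 3 = y ^ 3 * 1 := by ring
      _ ≤ y ^ 3 * y := by gcongr
      _ = y ^ 4 := by ring
  have k7 : y ≤ y ^ 4 := by
    calc y = y * 1 := by ring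
      _ ≤ y * y ^ 3 := by gcongr; exact one_le_pow₀ hy1
      _ = y ^ 4 := by ring
  nlinarith

/-! ### pointwise -/

private lemma adm57 : ∃ T0 : ℝ, 16 ≤ T0 ∧ ∀ T c m M : ℝ, T0 ≤ T → Adm 131072 T c m → m ≤ M → M ≤ 2 * c →
    0 < Real.log T ∧ 1 ≤ XX T M ∧ XX T M ≤ Real.log T / 131072 ∧ M = Real.log T / XX T M ∧ M ≤ Real.log T ∧ 1 ≤ M := by
  refine ⟨max 16 (Real.exp (Real.exp 1)), le_max_left _ _, ?_⟩
  intro T c m M hT hc h1 h2
  have hT16 : 16 ≤ T := (le_max_left _ _).trans hT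
  have hT0 : 0 < T := by linarith
  have hL1 : Real.exp 1 ≤ Real.log T := by
    rw [Real.le_log_iff_exp_le hT0]; exact (le_max_right _ _).trans hT
  have hL0 : 0 < Real.log T := (Real.exp_pos 1).trans_le hL1
  have hLL : 1 ≤ Real.log (Real.log T) := by
    rw [Real.le_log_iff_exp_le hL0]; exact hL1
  have hm := hc.le_m (by norm_num)
  have hM : 131072 ≤ M := hm.trans h1
  have hM0 : 0 < M := by linarith
  have hc0 : 0 < c := by linarith [hc.1]
  have hcL : 64 * c ≤ Real.log T := by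
    have := hc.2.2.2.2
    nlinarith
  have hML : M ≤ Real.log T := by linarith
  unfold XX
  refine ⟨hL0, ?_, ?_, ?_, hML, by linarith⟩
  · rw [le_div_iff₀ hM0, one_mul]
    exact hML
  · exact div_le_div_of_nonneg_left hL0.le (by norm_num) hM
  · field_simp

theorem MM_near : ∃ C T0 : ℝ, 0 < C ∧ 16 ≤ T0 ∧ ∀ T c m M t u τ : ℝ, T0 ≤ T → Adm 131072 T c m → m ≤ M → M ≤ 2 * c →
    T ≤ τ → τ ≤ 2 * T → |u| ≤ √T → |t - τ| ≤ T / 2 →
    |MM (XX T M) (t + u) - M| ≤ C * (M / Real.log T) := by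
  obtain ⟨C, hC, hM⟩ := MM_main
  obtain ⟨T1, hT1, hadm⟩ := adm57
  refine ⟨C + 2, T1, by positivity, hT1, ?_⟩
  intro T c m M t u τ hT hc hM1 hM2 h1 h2 hu ht
  obtain ⟨hL0, hX1, hX2, hec, -, hM3⟩ := hadm T c m M hT hc hM1 hM2
  have hXM : M / Real.log T = 1 / XX T M := by
    unfold XX
    rw [one_div_div]
  rw [hXM]
  set X := XX T M with hX
  have hT16 : 16 ≤ T := hT1.trans hT
  have hT0 : 0 < T := by linarith
  have hs : √T ≤ T / 4 := by
    rw [Real.sqrt_le_left (by positivity)]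
    nlinarith
  have hu1 := abs_le.mp hu
  have ht1 := abs_le.mp ht
  have hlo : T / 4 ≤ t + u := by linarith
  have hhi : t + u ≤ 4 * T := by linarith
  have hpos : 0 < t + u := by linarith
  have ha : |t + u| = t + u := abs_of_pos hpos
  have hexp : Real.exp (X / 2) ≤ (t + u) ^ 2 := by
    calc Real.exp (X / 2) ≤ Real.exp (Real.log T) := Real.exp_le_exp.mpr (by linarith)
      _ = T := Real.exp_log hT0
      _ ≤ (T / 4) ^ 2 := by nlinarith
      _ ≤ (t + u) ^ 2 := by gcongr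
  have h3 := hM X (t + u) hX1 (by rw [ha]; linarith) hexp
  rw [ha] at h3
  have hX0 : 0 < X := by linarith
  have h4 : |Real.log (t + u) / X - M| ≤ 2 / X := by
    rw [hec, ← sub_div, abs_div, abs_of_pos hX0]
    apply div_le_div_of_nonneg_right _ hX0.le
    have a1 : Real.log (t + u) ≤ Real.log 4 + Real.log T := by
      rw [← Real.log_mul (by norm_num) hT0.ne']
      exact Real.log_le_log hpos hhi
    have a2 : Real.log T - Real.log 4 ≤ Real.log (t + u) := by
      rw [← Real.log_div hT0.ne' (by norm_num)]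
      exact Real.log_le_log (by positivity) hlo
    have a3 : Real.log 4 ≤ 2 := by
      rw [show (4:ℝ) = 2 ^ 2 by norm_num, Real.log_pow]
      have := Real.log_two_lt_d9
      push_cast
      linarith
    rw [abs_le]
    constructor <;> linarith
  calc |MM X (t + u) - M| ≤ |MM X (t + u) - Real.log (t + u) / X| + |Real.log (t + u) / X - M| := abs_sub_le _ _ _
    _ ≤ C / X + 2 / X := add_le_add h3 h4
    _ = (C + 2) * (1 / X) := by ring

theorem MM_far : ∃ T0 : ℝ, ∀ T c m M t u τ : ℝ, T0 ≤ T → Adm 131072 T c m → m ≤ M → M ≤ 2 * c →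
    T ≤ τ → τ ≤ 2 * T → |u| ≤ √T → T / 2 < |t - τ| →
    |MM (XX T M) (t + u) - M| ≤ |t - τ| ^ (1 / 32768 : ℝ) := by
  obtain ⟨C, hC, hM⟩ := MM_all
  obtain ⟨T1, hT1, hadm⟩ := adm57
  obtain ⟨x0, hx0⟩ := eventually_atTop.mp (grow57 C hC)
  refine ⟨max T1 (2 * x0), ?_⟩
  intro T c m M t u τ hT hc hM1 hM2 h1 h2 hu ht
  obtain ⟨hL0, hX1, hX2, hec, hecL, hM3⟩ := hadm T c m M ((le_max_left _ _).trans hT) hc hM1 hM2
  have hT16 : 16 ≤ T := hT1.trans ((le_max_left _ _).trans hT)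
  have hT0 : 0 < T := by linarith
  have hTx : 2 * x0 ≤ T := (le_max_right _ _).trans hT
  set x := |t - τ| with hx
  have hxT : T ≤ 2 * x := by linarith
  have hxp : 0 < x := by linarith
  have hg := hx0 x (by linarith)
  refine le_trans ?_ hg
  set X := XX T M with hX
  have h3 := hM X (t + u) hX1
  have hs : √T ≤ T / 4 := by
    rw [Real.sqrt_le_left (by positivity)]
    nlinarith
  have h4 : |t + u| ≤ 7 * x := by
    calc |t + u| = |(t - τ) + (τ + u)| := by ring_nf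
      _ ≤ |t - τ| + |τ + u| := abs_add_le _ _
      _ ≤ x + (|τ| + |u|) := by gcongr; exact abs_add_le _ _
      _ ≤ x + (2 * T + T / 4) := by
          rw [abs_of_pos (by linarith : 0 < τ)]
          gcongr
          linarith
      _ ≤ 7 * x := by linarith
  have h5 : Real.log (2 + |t + u|) ≤ Real.log (9 * x) := by
    apply Real.log_le_log
    · have := abs_nonneg (t + u)
      linarith
    · linarith
  have h6 : Real.exp (2 * X) ≤ (2 * x) ^ (1 / 65536 : ℝ) := by
    calc Real.exp (2 * X) ≤ Real.exp (Real.log T * (1 / 65536)) := Real.exp_le_exp.mpr (by linarith)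
      _ = T ^ (1 / 65536 : ℝ) := by rw [Real.rpow_def_of_pos hT0]
      _ ≤ (2 * x) ^ (1 / 65536 : ℝ) := Real.rpow_le_rpow hT0.le hxT (by norm_num)
  have h7 : M ≤ Real.log (2 * x) := hecL.trans (Real.log_le_log hT0 hxT)
  have h8 : 0 ≤ Real.log (2 + |t + u|) := Real.log_nonneg (by have := abs_nonneg (t + u); linarith)
  calc |MM X (t + u) - M| ≤ |MM X (t + u)| + |M| := abs_sub _ _
    _ ≤ C * Real.exp (2 * X) * (1 + Real.log (2 + |t + u|)) + Real.log (2 * x) := by
        rw [abs_of_pos (by linarith : 0 < M)]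
        exact add_le_add h3 h7
    _ ≤ _ := by gcongr

/-! ### the mean -/

private lemma small57 (A : ℝ) : ∃ T0 : ℝ, 16 ≤ T0 ∧ ∀ T c m : ℝ, T0 ≤ T → Adm 1 T c m →
    Real.exp (A * c) ≤ T ^ (1 / 65536 : ℝ) ∧ T ^ (-(3 / 65536) : ℝ) ≤ 1 / Real.log T ∧
      8 * T ^ (-(2 / 16384) : ℝ) ≤ 1 / Real.log T := by
  have h1 : ∀ᶠ T : ℝ in atTop, 1024 * (|A| + 1) ≤ Real.log (Real.log T) :=
    (Real.tendsto_log_atTop.comp Real.tendsto_log_atTop).eventually_ge_atTop _
  have h2 : ∀ᶠ T : ℝ in atTop, Real.log T ≤ 1 / 8 * T ^ (3 / 65536 : ℝ) := by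
    have h := (isLittleO_log_rpow_atTop (r := (3 / 65536 : ℝ)) (by norm_num)).def (c := 1 / 8) (by positivity)
    filter_upwards [h, eventually_ge_atTop 1] with x hx hx1
    rw [Real.norm_of_nonneg (Real.log_nonneg hx1), Real.norm_of_nonneg (by positivity)] at hx
    exact hx
  obtain ⟨T0, hT0⟩ := eventually_atTop.mp (h1.and (h2.and (eventually_ge_atTop 16)))
  refine ⟨max 16 T0, le_max_left _ _, ?_⟩
  intro T c m hT hc
  obtain ⟨h3, h4, h5⟩ := hT0 T ((le_max_right _ _).trans hT)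
  have hTp : 0 < T := by linarith
  have hL : 0 < Real.log T := Real.log_pos (by linarith)
  have hc2 := hc.2.2.2.2
  have hc0 : 0 < c := by linarith [hc.1]
  have hp : 0 < T ^ (3 / 65536 : ℝ) := by positivity
  refine ⟨?_, ?_, ?_⟩
  · have h6 : A * c ≤ Real.log T * (1 / 65536) := by
      have a1 : A * c ≤ |A| * c := by gcongr; exact le_abs_self A
      have a2 : c * (1024 * (|A| + 1)) ≤ c * Real.log (Real.log T) := by gcongr
      nlinarith
    calc Real.exp (A * c) ≤ Real.exp (Real.log T * (1 / 65536)) := Real.exp_le_exp.mpr h6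
      _ = T ^ (1 / 65536 : ℝ) := by rw [Real.rpow_def_of_pos hTp]
  · rw [Real.rpow_neg hTp.le, ← one_div]
    exact one_div_le_one_div_of_le hL (by linarith)
  · have h6 : T ^ (3 / 65536 : ℝ) ≤ T ^ (2 / 16384 : ℝ) := Real.rpow_le_rpow_of_exponent_le (by linarith) (by norm_num)
    rw [Real.rpow_neg hTp.le, ← div_eq_mul_inv, div_le_div_iff₀ (by positivity) hL]
    linarith

/-- K5: main term, all kernel scales, from R2, R7, R8 -/
theorem mMM_of {δ : ℝ}
    (rr_bd : ∃ c0 T0 : ℝ, ∀ T c m v : ℝ, T0 ≤ T → Adm c0 T c m → |v| ≤ vv δ c m →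
      ∀ n, |rr δ T c m v n| ≤ T ^ (1 / 192 : ℝ) ∧ 1 ≤ VV δ T c m v)
    (m4 : ∃ A c0 T0 : ℝ, ∀ T c m v : ℝ, T0 ≤ T → Adm c0 T c m → |v| ≤ vv δ c m →
      ∀ τ : ℝ, Integrable (fun t => PW (WW T) (t - τ) * ‖RR δ T c m v t‖ ^ 4) ∧
      ∫ t, PW (WW T) (t - τ) * ‖RR δ T c m v t‖ ^ 4 ≤ Real.exp (A * c) * VV δ T c m v ^ 2)
    (wmass : ∃ c0 T0 : ℝ, ∀ T c m v : ℝ, T0 ≤ T → Adm c0 T c m → |v| ≤ vv δ c m →
      ∀ τ : ℝ, Integrable (wt δ T c m v τ) ∧ |(∫ t, wt δ T c m v τ t) - VV δ T c m v| ≤ VV δ T c m v / T) :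
    ∃ C c0 T0 : ℝ, 0 < C ∧ ∀ T c m v : ℝ, T0 ≤ T → Adm c0 T c m →
    |v| ≤ vv δ c m →
    ∀ M τ u : ℝ, m ≤ M → M ≤ 2 * c → T ≤ τ → τ ≤ 2 * T → |u| ≤ √T →
    Integrable (fun t => wt δ T c m v τ t * |MM (XX T M) (t + u) - M|) ∧
    ∫ t, wt δ T c m v τ t * |MM (XX T M) (t + u) - M| ≤ C * (M / Real.log T) * VV δ T c m v := by
  obtain ⟨C1, T1, hC1, hT1, hnear⟩ := MM_near
  obtain ⟨T2, hfar⟩ := MM_far
  obtain ⟨A, c3, T3, hm4⟩ := m4
  obtain ⟨c4, T4, hwm⟩ := wmass
  obtain ⟨c5, T5, hrb⟩ := rr_bd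
  obtain ⟨T6, hT6, hsm⟩ := small57 A
  obtain ⟨T7, hT7, hadm⟩ := adm57
  refine ⟨2 * C1 + 1, max (max (max c3 c4) c5) 131072, max (max (max T1 T2) (max T3 T4)) (max (max T5 T6) T7), by positivity, ?_⟩
  intro T c m v hT hc hv M τ u hM1 hM2 h1 h2 hu
  have hTT : T1 ≤ T ∧ T2 ≤ T ∧ T3 ≤ T ∧ T4 ≤ T ∧ T5 ≤ T ∧ T6 ≤ T ∧ T7 ≤ T := by
    refine ⟨?_, ?_, ?_, ?_, ?_, ?_, ?_⟩ <;> refine le_trans ?_ hT <;> simp
  obtain ⟨k1, k2, k3, k4, k5, k6, k7⟩ := hTT
  have hcb : Adm 131072 T c m := hc.mono (le_max_right _ _)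
  have hc3 : Adm c3 T c m := hc.mono ((le_max_left _ _).trans ((le_max_left _ _).trans (le_max_left _ _)))
  have hc4 : Adm c4 T c m := hc.mono ((le_max_right _ _).trans ((le_max_left _ _).trans (le_max_left _ _)))
  have hc5 : Adm c5 T c m := hc.mono ((le_max_right _ _).trans (le_max_left _ _))
  have hc1 : Adm 1 T c m := hcb.mono (by norm_num)
  obtain ⟨hI4, hB4⟩ := hm4 T c m v k3 hc3 hv τ
  obtain ⟨hIw, hBw⟩ := hwm T c m v k4 hc4 hv τ
  have hV1 : 1 ≤ VV δ T c m v := (hrb T c m v k5 hc5 hv 0).2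
  obtain ⟨hs1, hs2, hs3⟩ := hsm T c m k6 hc1
  obtain ⟨hL0, hX1, -, -, -, hMone⟩ := hadm T c m M k7 hcb hM1 hM2
  have hT16 : 16 ≤ T := hT1.trans k1
  have hT0 : 0 < T := by linarith
  set V := VV δ T c m v with hV
  have hV0 : 0 < V := by linarith
  set X := XX T M with hX
  have hX0 : 0 < X := by linarith
  set W := WW T with hW
  have hW0 : 0 < W := by rw [hW]; unfold WW; positivity
  set a : ℝ := T / 2 with ha
  have ha0 : 0 < a := by positivity
  obtain ⟨b, hb⟩ : ∃ b : ℝ, b = 1 / 16384 := ⟨_, rfl⟩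
  obtain ⟨hFi, hFv⟩ := F_int57 (b := b) ha0 (by rw [hb]; norm_num)
  set lam : ℝ := T ^ (-(1 / 16384) : ℝ) / V with hlam
  have hlam0 : 0 < lam := by positivity
  set D1 : ℝ := C1 * (M / Real.log T) with hD1
  have hD0 : 0 ≤ D1 := by rw [hD1]; positivity
  -- the majorant
  have hFi1 : Integrable (fun t : ℝ => F57 a b (t - τ)) := hFi.comp_sub_right τ
  have hFi2 : Integrable (fun t : ℝ => F57 a b (-(t - τ))) := (hFi.comp_neg).comp_sub_right τ
  have hFv1 : ∫ t : ℝ, F57 a b (t - τ) = a ^ (b - 1) / (1 - b) := by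
    rw [integral_sub_right_eq_self (fun x => F57 a b x) τ, hFv]
  have hFv2 : ∫ t : ℝ, F57 a b (-(t - τ)) = a ^ (b - 1) / (1 - b) := by
    rw [integral_sub_right_eq_self (fun x => F57 a b (-x)) τ, integral_neg_eq_self (fun x => F57 a b x), hFv]
  set g : ℝ → ℝ := fun t => D1 * wt δ T c m v τ t + (lam / 2 * (PW W (t - τ) * ‖RR δ T c m v t‖ ^ 4) +
    W / (2 * lam) * (F57 a b (t - τ) + F57 a b (-(t - τ)))) with hg
  have hgi : Integrable g :=
    (hIw.const_mul D1).add ((hI4.const_mul (lam / 2)).add ((hFi1.add hFi2).const_mul (W / (2 * lam))))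
  have hgv : ∫ t, g t = D1 * (∫ t, wt δ T c m v τ t) + (lam / 2 * (∫ t, PW W (t - τ) * ‖RR δ T c m v t‖ ^ 4) +
      W / (2 * lam) * (a ^ (b - 1) / (1 - b) + a ^ (b - 1) / (1 - b))) := by
    have q1 : ∫ t, (F57 a b (t - τ) + F57 a b (-(t - τ))) = a ^ (b - 1) / (1 - b) + a ^ (b - 1) / (1 - b) := by
      rw [integral_add hFi1 hFi2, hFv1, hFv2]
    have q2 : Integrable (fun t => lam / 2 * (PW W (t - τ) * ‖RR δ T c m v t‖ ^ 4)) := hI4.const_mul (lam / 2)
    have q3 : Integrable (fun t => W / (2 * lam) * (F57 a b (t - τ) + F57 a b (-(t - τ)))) :=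
      (hFi1.add hFi2).const_mul (W / (2 * lam))
    have q4 : Integrable (fun t => D1 * wt δ T c m v τ t) := hIw.const_mul D1
    have q5 : Integrable (fun t => lam / 2 * (PW W (t - τ) * ‖RR δ T c m v t‖ ^ 4) +
        W / (2 * lam) * (F57 a b (t - τ) + F57 a b (-(t - τ)))) := q2.add q3
    rw [hg, integral_add q4 q5, integral_add q2 q3, integral_const_mul, integral_const_mul, integral_const_mul, q1]
  have hwt0 : ∀ t, 0 ≤ wt δ T c m v τ t := by
    intro t
    unfold wt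
    have := (PW_pos hW0 (t - τ)).le
    positivity
  have hpt : ∀ t, wt δ T c m v τ t * |MM X (t + u) - M| ≤ g t := by
    intro t
    have hP0 : 0 < PW W (t - τ) := PW_pos hW0 (t - τ)
    have hF1 := F_nonneg57 (b := b) ha0 (t - τ)
    have hF2 := F_nonneg57 (b := b) ha0 (-(t - τ))
    rcases le_or_gt |t - τ| a with h | h
    · have h3 := hnear T c m M t u τ k1 hcb hM1 hM2 h1 h2 hu h
      have h4 : wt δ T c m v τ t * |MM X (t + u) - M| ≤ D1 * wt δ T c m v τ t := by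
        rw [mul_comm D1]
        exact mul_le_mul_of_nonneg_left h3 (hwt0 t)
      have h5 : 0 ≤ lam / 2 * (PW W (t - τ) * ‖RR δ T c m v t‖ ^ 4) +
          W / (2 * lam) * (F57 a b (t - τ) + F57 a b (-(t - τ))) := by
        positivity
      rw [hg]
      simp only
      linarith
    · have h3 := hfar T c m M t u τ k2 hcb hM1 hM2 h1 h2 hu h
      set f := |MM X (t + u) - M| with hf
      have hf0 : 0 ≤ f := abs_nonneg _
      set x := |t - τ| with hx
      have hx0 : 0 < x := ha0.trans h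
      have hFx : F57 a b (t - τ) + F57 a b (-(t - τ)) = x ^ (b - 2) := by
        unfold F57
        rcases le_total 0 (t - τ) with hs | hs
        · have e1 : x = t - τ := abs_of_nonneg hs
          rw [indicator_of_mem (show t - τ ∈ Ioi a by rw [← e1]; exact h),
            indicator_of_notMem (show -(t - τ) ∉ Ioi a by rw [mem_Ioi, not_lt]; linarith), add_zero, e1]
        · have e1 : x = -(t - τ) := abs_of_nonpos hs
          rw [indicator_of_notMem (show t - τ ∉ Ioi a by rw [mem_Ioi, not_lt]; linarith),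
            indicator_of_mem (show -(t - τ) ∈ Ioi a by rw [← e1]; exact h), zero_add, e1]
      have hf2 : f ^ 2 ≤ x ^ b := by
        calc f ^ 2 ≤ (x ^ (1 / 32768 : ℝ)) ^ 2 := by gcongr
          _ = x ^ b := by
              rw [← Real.rpow_natCast (x ^ (1 / 32768 : ℝ)) 2, ← Real.rpow_mul hx0.le, hb]
              congr 1; norm_num
      have hPx : PW W (t - τ) ≤ W * x ^ (-2 : ℝ) := by
        unfold PW
        have e1 : (t - τ) ^ 2 = x ^ 2 := (sq_abs _).symm
        rw [e1, Real.rpow_neg hx0.le, show (2:ℝ) = ((2:ℕ):ℝ) by norm_num, Real.rpow_natCast, ← div_eq_mul_inv]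
        apply div_le_div_of_nonneg_left hW0.le (by positivity)
        have := Real.pi_gt_three
        nlinarith [sq_nonneg W, sq_nonneg x]
      have h6 : PW W (t - τ) * f ^ 2 ≤ W * x ^ (b - 2) := by
        calc PW W (t - τ) * f ^ 2 ≤ (W * x ^ (-2 : ℝ)) * x ^ b := by gcongr
          _ = W * x ^ (b - 2) := by
              rw [mul_assoc, ← Real.rpow_add hx0]
              congr 2; ring
      have h7 : ‖RR δ T c m v t‖ ^ 2 * f ≤ lam / 2 * ‖RR δ T c m v t‖ ^ 4 + 1 / (2 * lam) * f ^ 2 := by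
        set r := ‖RR δ T c m v t‖ ^ 2 with hr
        have e1 : ‖RR δ T c m v t‖ ^ 4 = r ^ 2 := by rw [hr]; ring
        rw [e1]
        have h8 : 0 ≤ (lam * r - f) ^ 2 / (2 * lam) := by positivity
        have e2 : (lam * r - f) ^ 2 / (2 * lam) = lam / 2 * r ^ 2 + 1 / (2 * lam) * f ^ 2 - r * f := by
          field_simp
          ring
        linarith
      have h9 : 0 ≤ D1 * wt δ T c m v τ t := mul_nonneg hD0 (hwt0 t)
      have h10 : wt δ T c m v τ t * f ≤ lam / 2 * (PW W (t - τ) * ‖RR δ T c m v t‖ ^ 4) + W / (2 * lam) * x ^ (b - 2) := by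
        calc wt δ T c m v τ t * f = PW W (t - τ) * (‖RR δ T c m v t‖ ^ 2 * f) := by unfold wt; ring
          _ ≤ PW W (t - τ) * (lam / 2 * ‖RR δ T c m v t‖ ^ 4 + 1 / (2 * lam) * f ^ 2) := by gcongr
          _ = lam / 2 * (PW W (t - τ) * ‖RR δ T c m v t‖ ^ 4) + 1 / (2 * lam) * (PW W (t - τ) * f ^ 2) := by ring
          _ ≤ lam / 2 * (PW W (t - τ) * ‖RR δ T c m v t‖ ^ 4) + 1 / (2 * lam) * (W * x ^ (b - 2)) := by gcongr
          _ = _ := by ring
      rw [hg]
      simp only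
      rw [hFx]
      linarith
  have hmeas : AEStronglyMeasurable (fun t => wt δ T c m v τ t * |MM X (t + u) - M|) volume := by
    refine hIw.aestronglyMeasurable.mul ?_
    have h3 : Measurable fun t => MM X (t + u) := (MM_meas hX0).comp (by fun_prop)
    exact ((h3.sub_const _).abs).aestronglyMeasurable
  have hint : Integrable (fun t => wt δ T c m v τ t * |MM X (t + u) - M|) := by
    refine hgi.mono' hmeas (Eventually.of_forall fun t => ?_)
    rw [Real.norm_of_nonneg (mul_nonneg (hwt0 t) (abs_nonneg _))]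
    exact hpt t
  refine ⟨hint, ?_⟩
  have h3 : ∫ t, wt δ T c m v τ t * |MM X (t + u) - M| ≤ ∫ t, g t := integral_mono hint hgi hpt
  rw [hgv] at h3
  have h4 : ∫ t, wt δ T c m v τ t ≤ 2 * V := by
    have h5 := (abs_le.mp hBw).2
    have h6 : V / T ≤ V := div_le_self hV0.le (by linarith)
    linarith
  have hVL : V / Real.log T ≤ M / Real.log T * V := by
    rw [div_mul_eq_mul_div]
    apply div_le_div_of_nonneg_right _ hL0.le
    nlinarith
  have h5 : lam / 2 * (∫ t, PW W (t - τ) * ‖RR δ T c m v t‖ ^ 4) ≤ V / Real.log T / 2 := by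
    calc lam / 2 * (∫ t, PW W (t - τ) * ‖RR δ T c m v t‖ ^ 4) ≤ lam / 2 * (Real.exp (A * c) * V ^ 2) := by gcongr
      _ ≤ lam / 2 * (T ^ (1 / 65536 : ℝ) * V ^ 2) := by gcongr
      _ = (T ^ (-(1 / 16384) : ℝ) * T ^ (1 / 65536 : ℝ)) * V / 2 := by
          rw [hlam]; field_simp
      _ = T ^ (-(3 / 65536) : ℝ) * V / 2 := by
          rw [← Real.rpow_add hT0]
          congr 3
          norm_num
      _ ≤ 1 / Real.log T * V / 2 := by gcongr
      _ = V / Real.log T / 2 := by ring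
  have h6 : W / (2 * lam) * (a ^ (b - 1) / (1 - b) + a ^ (b - 1) / (1 - b)) ≤ V / Real.log T / 2 := by
    have e1 : a ^ (b - 1) ≤ 2 * T ^ (b - 1) := by
      rw [ha, Real.div_rpow hT0.le (by norm_num)]
      have e2 : (1:ℝ) / 2 ≤ (2:ℝ) ^ (b - 1) := by
        calc (1:ℝ) / 2 = (2:ℝ) ^ (-1 : ℝ) := by rw [Real.rpow_neg_one]; norm_num
          _ ≤ (2:ℝ) ^ (b - 1) := Real.rpow_le_rpow_of_exponent_le (by norm_num) (by rw [hb]; norm_num)
      rw [div_le_iff₀ (by positivity)]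
      have h8 : 0 < T ^ (b - 1) := by positivity
      nlinarith only [e2, h8]
    have e3 : 1 / 2 ≤ 1 - b := by rw [hb]; norm_num
    have e4 : a ^ (b - 1) / (1 - b) ≤ 4 * T ^ (b - 1) := by
      rw [div_le_iff₀ (by linarith only [e3])]
      have h8 : 0 < T ^ (b - 1) := by positivity
      nlinarith only [e1, e3, h8]
    calc W / (2 * lam) * (a ^ (b - 1) / (1 - b) + a ^ (b - 1) / (1 - b))
        ≤ W / (2 * lam) * (4 * T ^ (b - 1) + 4 * T ^ (b - 1)) := by gcongr
      _ = 4 * (W * T ^ (b - 1)) / lam := by field_simp; ring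
      _ = 4 * (T ^ (-(2 / 16384) : ℝ) * T ^ (-(1 / 16384) : ℝ)) / lam := by
          rw [hW]
          unfold WW
          rw [← Real.rpow_add hT0, ← Real.rpow_add hT0]
          congr 3
          rw [hb]; norm_num
      _ = (8 * T ^ (-(2 / 16384) : ℝ)) * V / 2 := by
          rw [hlam]
          have : T ^ (-(1 / 16384) : ℝ) ≠ 0 := by positivity
          field_simp
          norm_num
      _ ≤ 1 / Real.log T * V / 2 := by gcongr
      _ = V / Real.log T / 2 := by ring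
  have h7 : D1 * (∫ t, wt δ T c m v τ t) ≤ D1 * (2 * V) := by gcongr
  have h8 : (2 * C1 + 1) * (M / Real.log T) * V = D1 * (2 * V) + M / Real.log T * V := by rw [hD1]; ring
  rw [h8]
  linarith

end Pool.Agent.Helper36.X.H57
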