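import Pool.Agent.Helper69.UW.Defs
import Pool.Agent.Helper69.UG.NxDev
import Pool.Agent.Helper87.UG.LossPt
import Pool.Agent.Helper24.WS.Edge
import Pool.Agent.Helper24.UG.Win
import Pool.Agent.Helper57.UG.MmA

/-!
# UW-K3e, K6, K6e: the smooth count, and its average over a window, in the weighted mean
-/

set_option autoImplicit false
open MeasureTheory Set Filter Topology
open Pool.Agent.Helper57.Zeta Pool.Agent.Helper57.LH Pool.Agent.Helper57.ED Pool.Agent.Helper54.LG
open Pool.Agent.Helper93.UG (zc IsOrd sp)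
open Pool.Agent.Helper69.UG (pt NX SS_cont SS_bdd NX_meas MM_meas XX NR NM WW near far)
open Pool.Agent.Helper69.UV (ww HH)

namespace Pool.Agent.Helper36.X.H69

open Pool.Agent.Helper69.UW

variable {δ : ℝ}

/-! ### K3e -/

/-- K3e -/
theorem edge_pt : ∃ C : ℝ, 0 < C ∧ ∀ T M Y h t : ℝ, 3 ≤ T → 0 < M → M ≤ Real.log T → 0 < Y → Y ≤ M → 0 < h →
    |XX T M / (2 * Real.pi) * ∫ w in (-h)..h, (NX (XX T M) (t + w) - (MM (XX T M) (t + w) - SS (XX T M) (t + w)))| ≤
      C * ((Y / M) ^ 2 * (near T M Y (t + h) + near T M Y (t - h)) + (far T M Y (t + h) + far T M Y (t - h))) := by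
  refine ⟨104, by norm_num, fun T M Y h t hT hM _ hY hYM hh => ?_⟩
  have hX : 0 < XX T M := div_pos (Real.log_pos (by linarith)) hM
  have h1 := Pool.Agent.Helper24.WS.win_edge hX t h
  have h2 := Pool.Agent.Helper24.WS.EdgeM_le_near_far (T := T) (c := M) (Y := Y) (by linarith) hM hYM (t - h)
  have h3 := Pool.Agent.Helper24.WS.EdgeM_le_near_far (T := T) (c := M) (Y := Y) (by linarith) hM hYM (t + h)
  have hn : ∀ t, 0 ≤ near T M Y t := by
    intro t
    unfold near
    refine tsum_nonneg fun ρ => mul_nonneg (mx_nonneg _) ?_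
    split_ifs <;> positivity
  have hf : ∀ t, 0 ≤ far T M Y t := by
    intro t
    unfold far
    refine tsum_nonneg fun ρ => mul_nonneg (mx_nonneg _) ?_
    split_ifs
    · exact le_rfl
    · positivity
  refine h1.trans ?_
  rw [div_le_iff₀ (by positivity)]
  have hpi : 1 ≤ 2 * Real.pi := by linarith [Real.pi_gt_three]
  set A := (Y / M) ^ 2 * (near T M Y (t + h) + near T M Y (t - h)) with hA
  set B := far T M Y (t + h) + far T M Y (t - h) with hB
  have hA0 : 0 ≤ A := by
    have := hn (t + h)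
    have := hn (t - h)
    positivity
  have hB0 : 0 ≤ B := add_nonneg (hf _) (hf _)
  have h4 : 104 * (Y / M) ^ 2 * near T M Y (t - h) + 76 * far T M Y (t - h) +
      (104 * (Y / M) ^ 2 * near T M Y (t + h) + 76 * far T M Y (t + h)) = 104 * A + 76 * B := by rw [hA, hB]; ring
  have h5 : 104 * (A + B) * 1 ≤ 104 * (A + B) * (2 * Real.pi) := mul_le_mul_of_nonneg_left hpi (by positivity)
  linarith

/-! ### averages over the shift -/

/-- Tonelli for averages over the shift. -/
theorem avg_abs {w f : ℝ → ℝ} {h K : ℝ} (hw : Continuous w) (hw0 : ∀ t, 0 ≤ w t) (hf : Measurable f) (hf0 : ∀ x, 0 ≤ f x)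
    (hh : 0 < h) (hD : ∀ u, |u| ≤ h → Integrable (fun t => w t * f (t + u)) ∧ ∫ t, w t * f (t + u) ≤ K) :
    Integrable (fun t => w t * ∫ u in (-h)..h, f (t + u)) ∧ ∫ t, w t * (∫ u in (-h)..h, f (t + u)) ≤ K * (2 * h) := by
  set ν : Measure ℝ := volume.restrict (Ioc (-h) h) with hν
  have : IsFiniteMeasure ν := ⟨by rw [hν, Measure.restrict_apply_univ, Real.volume_Ioc]; exact ENNReal.ofReal_lt_top⟩
  have hνr : ν.real univ = 2 * h := by
    rw [Measure.real, hν, Measure.restrict_apply_univ, Real.volume_Ioc, ENNReal.toReal_ofReal (by linarith)]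
    ring
  set g : ℝ × ℝ → ℝ := fun p => w p.1 * f (p.1 + p.2) with hg
  have hgm : Measurable g := by
    have h1 : Measurable fun p : ℝ × ℝ => f (p.1 + p.2) := hf.comp (by fun_prop)
    have h3 : Measurable fun p : ℝ × ℝ => w p.1 := hw.measurable.comp measurable_fst
    exact h3.mul h1
  have hg0 : ∀ p, 0 ≤ g p := fun p => mul_nonneg (hw0 _) (hf0 _)
  have hu : ∀ᵐ u ∂ν, |u| ≤ h := by
    refine ae_restrict_of_forall_mem measurableSet_Ioc fun u hu => ?_
    rw [abs_le]; exact ⟨hu.1.le, hu.2⟩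
  have hnorm : ∀ t u, ‖g (t, u)‖ = w t * f (t + u) := fun t u => by rw [Real.norm_of_nonneg (hg0 _)]
  have hgi : Integrable g (volume.prod ν) := by
    rw [integrable_prod_iff' hgm.aestronglyMeasurable]
    constructor
    · filter_upwards [hu] with u hu
      exact (hD u hu).1
    · have h1 : StronglyMeasurable fun u => ∫ t, ‖g (t, u)‖ := by
        apply StronglyMeasurable.integral_prod_left (f := fun t u => ‖g (t, u)‖)
        exact hgm.norm.stronglyMeasurable
      refine Integrable.mono' (integrable_const K) h1.aestronglyMeasurable ?_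
      filter_upwards [hu] with u hu
      rw [Real.norm_of_nonneg (integral_nonneg fun t => norm_nonneg _)]
      simp only [hnorm]
      exact (hD u hu).2
  have hswap : ∫ t, ∫ u, g (t, u) ∂ν = ∫ u, (∫ t, g (t, u)) ∂ν := integral_integral_swap (f := fun t u => g (t, u)) hgi
  have hK : ∫ t, ∫ u, g (t, u) ∂ν ≤ K * (2 * h) := by
    rw [hswap]
    refine (le_abs_self _).trans ?_
    rw [← Real.norm_eq_abs]
    refine (norm_integral_le_of_norm_le_const (C := K) ?_).trans (by rw [hνr])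
    filter_upwards [hu] with u hu
    rw [Real.norm_of_nonneg (integral_nonneg fun t => hg0 _)]
    exact (hD u hu).2
  have hin : ∀ t : ℝ, w t * (∫ u in (-h)..h, f (t + u)) = ∫ u, g (t, u) ∂ν := by
    intro t
    rw [intervalIntegral.integral_of_le (by linarith), ← integral_const_mul]
  simp only [hin]
  exact ⟨hgi.integral_prod_left, hK⟩

/-! ### statements of the blocks -/

theorem wt_nonneg {T : ℝ} (hT : 0 < T) (c m v τ t : ℝ) : 0 ≤ wt δ T c m v τ t := by
  unfold wt
  have : 0 < WW T := by unfold WW; positivity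
  exact mul_nonneg (PW_pos this _).le (sq_nonneg _)

theorem wt_cont {T : ℝ} (hT : 0 < T) (c m v τ : ℝ) : Continuous (wt δ T c m v τ) := by
  have hW0 : 0 < WW T := by unfold WW; positivity
  have hpi := Real.pi_pos
  unfold wt
  have h1 : Continuous fun t => PW (WW T) (t - τ) := by
    unfold PW
    apply Continuous.div continuous_const (by fun_prop)
    intro t
    positivity
  have h2 : Continuous (RR δ T c m v) := by
    unfold RR
    refine continuous_finsetSum _ fun n hn => ?_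
    have hn0 : (n : ℂ) ≠ 0 := by exact_mod_cast (Nat.pos_iff_ne_zero.mp (Finset.mem_Icc.1 hn).1)
    exact continuous_const.mul (Continuous.const_cpow (by fun_prop) (Or.inl hn0))
  exact h1.mul (h2.norm.pow 2)

/-- `wt` times a bounded function. -/
theorem int_wt_mul {T c m v τ : ℝ} (h : Integrable (wt δ T c m v τ)) {f : ℝ → ℝ} (hf : Measurable f) {B : ℝ}
    (hB : ∀ t, |f t| ≤ B) : Integrable fun t => wt δ T c m v τ t * f t :=
  h.mul_bdd (c := B) hf.aestronglyMeasurable (Eventually.of_forall fun t => by rw [Real.norm_eq_abs]; exact hB t)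

/-- Z8, statement -/
def FarMean (δ : ℝ) : Prop := ∃ C1 c0 T0 : ℝ, 1 ≤ C1 ∧ ∀ T c m v : ℝ, T0 ≤ T → Adm c0 T c m →
    |v| ≤ vv δ c m →
    ∀ M τ u : ℝ, m ≤ M → M ≤ 2 * c → |τ| ≤ 2 * T → |u| ≤ T / 4 →
    Integrable (fun t => wt δ T c m v τ t * far T M (C1 * √m) (t + u)) ∧
    ∫ t, wt δ T c m v τ t * far T M (C1 * √m) (t + u) ≤ VV δ T c m v

/-- K5, statement -/
def MeanMM (δ : ℝ) : Prop := ∃ C c0 T0 : ℝ, 0 < C ∧ ∀ T c m v : ℝ, T0 ≤ T → Adm c0 T c m →
    |v| ≤ vv δ c m →
    ∀ M τ u : ℝ, m ≤ M → M ≤ 2 * c → T ≤ τ → τ ≤ 2 * T → |u| ≤ √T →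
    Integrable (fun t => wt δ T c m v τ t * |MM (XX T M) (t + u) - M|) ∧
    ∫ t, wt δ T c m v τ t * |MM (XX T M) (t + u) - M| ≤ C * (M / Real.log T) * VV δ T c m v

/-- R11, statement -/
def VarSS (δ : ℝ) : Prop := ∃ C c0 T0 : ℝ, 0 < C ∧ ∀ T c m v : ℝ, T0 ≤ T → Adm c0 T c m →
    |v| ≤ vv δ c m → ∀ M τ u : ℝ, m ≤ M → M ≤ 2 * c →
    ∫ t, wt δ T c m v τ t * SS (XX T M) (t + u) ^ 2 ≤ C * M * VV δ T c m v

/-- R8, statement -/
def Mass (δ : ℝ) : Prop := ∃ c0 T0 : ℝ, ∀ T c m v : ℝ, T0 ≤ T → Adm c0 T c m → |v| ≤ vv δ c m →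
    ∀ τ : ℝ, Integrable (wt δ T c m v τ) ∧ |(∫ t, wt δ T c m v τ t) - VV δ T c m v| ≤ VV δ T c m v / T

/-- R2, statement -/
def RrBd (δ : ℝ) : Prop := ∃ c0 T0 : ℝ, ∀ T c m v : ℝ, T0 ≤ T → Adm c0 T c m → |v| ≤ vv δ c m →
    ∀ n, |rr δ T c m v n| ≤ T ^ (1 / 192 : ℝ) ∧ 1 ≤ VV δ T c m v

/-- K6, statement -/
def NxDev (δ : ℝ) : Prop := ∃ C c0 T0 : ℝ, 0 < C ∧ ∀ T c m v : ℝ, T0 ≤ T → Adm c0 T c m →
    |v| ≤ vv δ c m →
    ∀ M τ u : ℝ, m ≤ M → M ≤ 2 * c → T ≤ τ → τ ≤ 2 * T → |u| ≤ √T →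
    Integrable (fun t => wt δ T c m v τ t * |NX (XX T M) (t + u) - M + SS (XX T M) (t + u)|) ∧
    ∫ t, wt δ T c m v τ t * |NX (XX T M) (t + u) - M + SS (XX T M) (t + u)| ≤ C * VV δ T c m v

/-- K6e, statement -/
def WAvg (δ : ℝ) : Prop := ∃ C c0 T0 : ℝ, 0 < C ∧ ∀ T c m v : ℝ, T0 ≤ T → Adm c0 T c m →
    |v| ≤ vv δ c m → ∀ τ : ℝ, T ≤ τ → τ ≤ 2 * T →
    Integrable (fun t => wt δ T c m v τ t *
      |XX T m / (2 * Real.pi) * (∫ w in (-(HH T c))..(HH T c), NX (XX T m) (t + w)) - c + WS T c m t|) ∧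
    ∫ t, wt δ T c m v τ t *
      |XX T m / (2 * Real.pi) * (∫ w in (-(HH T c))..(HH T c), NX (XX T m) (t + w)) - c + WS T c m t| ≤
        C * VV δ T c m v

/-! ### the mean of the near zeros -/

theorem far_nonneg (T M Y t : ℝ) : 0 ≤ far T M Y t := by
  unfold far
  refine tsum_nonneg fun ρ => mul_nonneg (mx_nonneg _) ?_
  split_ifs
  · exact le_rfl
  · positivity

/-- The majorant of `(Y/M)² near + far`, `Y = C1 √m`, and its mean. -/
theorem near_majorant (far_mean : FarMean δ) (mMM : MeanMM δ) (vSS : VarSS δ) (wmass : Mass δ) (rr_bd : RrBd δ) :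
    ∃ C C1 c0 T0 : ℝ, 0 < C ∧ 1 ≤ C1 ∧ ∀ T c m v : ℝ, T0 ≤ T → Adm c0 T c m → |v| ≤ vv δ c m →
    16 ≤ T ∧ 1 ≤ VV δ T c m v ∧ 2 * c ≤ Real.log T ∧
    ∀ M τ u : ℝ, m ≤ M → M ≤ 2 * c → T ≤ τ → τ ≤ 2 * T → |u| ≤ √T → C1 * √m ≤ M ∧
    ∃ g : ℝ → ℝ, (∀ t, (C1 * √m / M) ^ 2 * near T M (C1 * √m) (t + u) + far T M (C1 * √m) (t + u) ≤ g t) ∧
      (∀ t, 0 ≤ g t) ∧ Integrable (fun t => wt δ T c m v τ t * g t) ∧ ∫ t, wt δ T c m v τ t * g t ≤ C * VV δ T c m v := by
  obtain ⟨C1, c1, T1, hC1, hfar⟩ := far_mean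
  obtain ⟨C2, c2, T2, hC2, hMM⟩ := mMM
  obtain ⟨C4, k2, hC4, hk2, hnear⟩ := Pool.Agent.Helper87.UG.near_pt
  obtain ⟨C5, c5, T5, hC5, hSS⟩ := vSS
  obtain ⟨c6, T6, hmass⟩ := wmass
  obtain ⟨c7, T7, hrr⟩ := rr_bd
  obtain ⟨T8, hT8, hcL⟩ := Adm.c_le 2
  refine ⟨C4 * (C2 + 1) + C4 * C1 ^ 2 * (4 + C5) + 1, C1, max (max (max c1 c2) (max c5 c6)) (max (max c7 1)
    (max (C1 ^ 2) ((C1 / k2) ^ 2))), max (max (max T1 T2) (max T5 T6)) (max T7 T8), by positivity, hC1, ?_⟩
  intro T c m v hT hc hv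
  simp only [max_le_iff] at hT
  obtain ⟨⟨⟨hT1, hT2⟩, hT5, hT6⟩, hT7, hT8'⟩ := hT
  set c0 := max (max (max c1 c2) (max c5 c6)) (max (max c7 1) (max (C1 ^ 2) ((C1 / k2) ^ 2))) with hc0def
  have hA1 : Adm c1 T c m := hc.mono ((le_max_left _ _).trans ((le_max_left _ _).trans (le_max_left _ _)))
  have hA2 : Adm c2 T c m := hc.mono ((le_max_right _ _).trans ((le_max_left _ _).trans (le_max_left _ _)))
  have hA5 : Adm c5 T c m := hc.mono ((le_max_left _ _).trans ((le_max_right _ _).trans (le_max_left _ _)))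
  have hA6 : Adm c6 T c m := hc.mono ((le_max_right _ _).trans ((le_max_right _ _).trans (le_max_left _ _)))
  have hA7 : Adm c7 T c m := hc.mono ((le_max_left _ _).trans ((le_max_left _ _).trans (le_max_right _ _)))
  have hA8 : Adm (C1 ^ 2) T c m := hc.mono ((le_max_left _ _).trans ((le_max_right _ _).trans (le_max_right _ _)))
  have hA9 : Adm ((C1 / k2) ^ 2) T c m := hc.mono ((le_max_right _ _).trans ((le_max_right _ _).trans (le_max_right _ _)))
  have hT16 : 16 ≤ T := hT8.trans hT8'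
  have hT0 : 0 < T := by linarith
  have hm1 : 1 ≤ m := hc.2.1
  have hm0 : 0 < m := by linarith
  have hlog : 0 < Real.log T := Real.log_pos (by linarith)
  have hc2L : 2 * c ≤ Real.log T := hcL c0 T c m hT8' hc
  have hV1 : 1 ≤ VV δ T c m v := (hrr T c m v hT7 hA7 hv 0).2
  have hV : 0 < VV δ T c m v := by linarith
  have hsm : 0 < √m := Real.sqrt_pos.mpr hm0
  have hC1m : C1 ≤ √m := by
    apply Real.le_sqrt_of_sq_le
    exact hA8.le_m (by positivity)
  have hC1k : C1 / k2 ≤ √m := by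
    apply Real.le_sqrt_of_sq_le
    exact hA9.le_m (by positivity)
  have hss : √m * √m = m := Real.mul_self_sqrt hm0.le
  refine ⟨hT16, hV1, hc2L, ?_⟩
  intro M τ u hmM hMc hτ1 hτ2 hu
  have hM0 : 0 < M := by linarith
  have hM1 : 1 ≤ M := by linarith
  have hML : M ≤ Real.log T := by linarith
  set Y := C1 * √m with hY
  have hY0 : 0 < Y := by positivity
  have hYm : Y ≤ m := by
    rw [hY]
    calc C1 * √m ≤ √m * √m := mul_le_mul_of_nonneg_right hC1m hsm.le
      _ = m := hss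
  have hYM : Y ≤ M := hYm.trans hmM
  have hYk : Y ≤ k2 * M := by
    have h1 : C1 ≤ √m * k2 := by rwa [div_le_iff₀ hk2] at hC1k
    calc Y ≤ (√m * k2) * √m := by rw [hY]; exact mul_le_mul_of_nonneg_right h1 hsm.le
      _ = k2 * (√m * √m) := by ring
      _ = k2 * m := by rw [hss]
      _ ≤ k2 * M := by gcongr
  refine ⟨hYM, ?_⟩
  have hτ : |τ| ≤ 2 * T := by rw [abs_le]; constructor <;> linarith
  have hsq : √T ≤ T / 4 := by
    have h4 : (4:ℝ) ≤ √T := Real.le_sqrt_of_sq_le (by linarith)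
    nlinarith [Real.mul_self_sqrt hT0.le]
  have hu4 : |u| ≤ T / 4 := hu.trans hsq
  obtain ⟨hfi, hfb⟩ := hfar T c m v hT1 hA1 hv M τ u hmM hMc hτ hu4
  obtain ⟨hMi, hMb⟩ := hMM T c m v hT2 hA2 hv M τ u hmM hMc hτ1 hτ2 hu
  have hS := hSS T c m v hT5 hA5 hv M τ u hmM hMc
  obtain ⟨hwi, hwb⟩ := hmass T c m v hT6 hA6 hv τ
  have hYM2 : (Y / M) ^ 2 ≤ 1 := by
    have : Y / M ≤ 1 := by rw [div_le_one hM0]; exact hYM
    exact pow_le_one₀ (by positivity) this
  have hYM3 : (Y / M) ^ 2 * M ≤ C1 ^ 2 := by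
    have h1 : (Y / M) ^ 2 * M = C1 ^ 2 * (m / M) := by
      rw [hY, div_pow, mul_pow, Real.sq_sqrt hm0.le]
      field_simp
    rw [h1]
    have h2 : m / M ≤ 1 := by rw [div_le_one hM0]; exact hmM
    exact mul_le_of_le_one_right (by positivity) h2
  set g : ℝ → ℝ := fun t => C4 * (|MM (XX T M) (t + u) - M| + far T M Y (t + u)) +
    C4 * C1 ^ 2 * (2 + SS (XX T M) (t + u) ^ 2 / M) + far T M Y (t + u) with hg
  have hfar0 : ∀ t, 0 ≤ far T M Y t := fun t => far_nonneg T M Y t
  refine ⟨g, ?_, ?_, ?_⟩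
  · intro t
    have h2 := hnear T M Y (t + u) (by linarith) hM0 hY0 hYk
    set A := MM (XX T M) (t + u)
    set S := SS (XX T M) (t + u)
    set F := far T M Y (t + u) with hF
    have hF0 : 0 ≤ F := hfar0 _
    have h3 : |S| ≤ S ^ 2 / M + M := by
      have h4 : |S| * M ≤ S ^ 2 + M ^ 2 := by
        rw [← sq_abs S]
        nlinarith [sq_nonneg (|S| - M), abs_nonneg S]
      rw [← sub_nonneg]
      have : S ^ 2 / M + M - |S| = (S ^ 2 + M ^ 2 - |S| * M) / M := by field_simp
      rw [this]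
      exact div_nonneg (by linarith) hM0.le
    have h5 : near T M Y (t + u) ≤ C4 * (|A - M| + 2 * M + S ^ 2 / M + F) := by
      refine h2.trans (mul_le_mul_of_nonneg_left ?_ hC4.le)
      have := le_abs_self (A - M)
      have := neg_abs_le S
      linarith
    have h6 : (Y / M) ^ 2 * near T M Y (t + u) ≤ C4 * (|A - M| + F) + C4 * C1 ^ 2 * (2 + S ^ 2 / M) := by
      calc (Y / M) ^ 2 * near T M Y (t + u) ≤ (Y / M) ^ 2 * (C4 * (|A - M| + 2 * M + S ^ 2 / M + F)) := by gcongr
        _ = C4 * ((Y / M) ^ 2 * (|A - M| + F)) + C4 * (((Y / M) ^ 2 * M) * (2 + S ^ 2 / M / M)) := by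
            have e : M * (S ^ 2 / M / M) = S ^ 2 / M := by field_simp
            linear_combination -(C4 * (Y / M) ^ 2) * e
        _ ≤ C4 * (1 * (|A - M| + F)) + C4 * (C1 ^ 2 * (2 + S ^ 2 / M)) := by
            have a1 : 0 ≤ |A - M| + F := by positivity
            have a2 : S ^ 2 / M / M ≤ S ^ 2 / M := div_le_self (by positivity) hM1
            gcongr
        _ = _ := by ring
    simp only [hg]
    linarith
  · intro t
    have := hfar0 (t + u)
    have := abs_nonneg (MM (XX T M) (t + u) - M)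
    simp only [hg]
    positivity
  · obtain ⟨B, hB⟩ := SS_bdd (XX T M)
    have hSi : Integrable fun t => wt δ T c m v τ t * SS (XX T M) (t + u) ^ 2 := by
      refine int_wt_mul hwi (((SS_cont _).measurable.comp (measurable_id.add_const u)).pow_const 2) (B := B ^ 2) fun t => ?_
      rw [abs_pow]
      have := hB (t + u)
      gcongr
    set f2 : ℝ → ℝ := fun t => wt δ T c m v τ t * |MM (XX T M) (t + u) - M| with hf2
    set f3 : ℝ → ℝ := fun t => wt δ T c m v τ t * SS (XX T M) (t + u) ^ 2 with hf3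
    set f4 : ℝ → ℝ := fun t => wt δ T c m v τ t * far T M Y (t + u) with hf4
    have i1 : Integrable fun t => f2 t + f4 t := hMi.add hfi
    have i2 : Integrable fun t => 2 * wt δ T c m v τ t + M⁻¹ * f3 t := (hwi.const_mul 2).add (hSi.const_mul _)
    have i3 : Integrable fun t => C4 * (f2 t + f4 t) := i1.const_mul C4
    have i4 : Integrable fun t => C4 * C1 ^ 2 * (2 * wt δ T c m v τ t + M⁻¹ * f3 t) := i2.const_mul _
    have i5 : Integrable fun t => C4 * (f2 t + f4 t) + C4 * C1 ^ 2 * (2 * wt δ T c m v τ t + M⁻¹ * f3 t) := i3.add i4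
    have i6 : Integrable fun t => C4 * (f2 t + f4 t) + C4 * C1 ^ 2 * (2 * wt δ T c m v τ t + M⁻¹ * f3 t) + f4 t := i5.add hfi
    have heq : (fun t => wt δ T c m v τ t * g t) =
        fun t => C4 * (f2 t + f4 t) + C4 * C1 ^ 2 * (2 * wt δ T c m v τ t + M⁻¹ * f3 t) + f4 t := by
      funext t
      simp only [hg, hf2, hf3, hf4]
      ring
    rw [heq]
    refine ⟨i6, ?_⟩
    rw [integral_add i5 hfi, integral_add i3 i4, integral_const_mul, integral_const_mul, integral_add hMi hfi,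
      integral_add (hwi.const_mul 2) (hSi.const_mul _), integral_const_mul, integral_const_mul]
    have h3 : ∫ t, wt δ T c m v τ t ≤ 2 * VV δ T c m v := by
      have := (abs_le.mp hwb).2
      have h4 : VV δ T c m v / T ≤ VV δ T c m v := div_le_self hV.le (by linarith)
      linarith
    have h4 : M⁻¹ * (∫ t, f3 t) ≤ C5 * VV δ T c m v := by
      rw [inv_mul_le_iff₀ hM0]
      linarith
    have h5 : ∫ t, f2 t ≤ C2 * VV δ T c m v := by
      refine hMb.trans ?_
      apply mul_le_mul_of_nonneg_right _ hV.le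
      have : M / Real.log T ≤ 1 := by rw [div_le_one hlog]; exact hML
      exact mul_le_of_le_one_right hC2.le this
    have h6 : C4 * ((∫ t, f2 t) + ∫ t, f4 t) ≤ C4 * ((C2 + 1) * VV δ T c m v) := by
      gcongr
      linarith
    have h7 : C4 * C1 ^ 2 * (2 * (∫ t, wt δ T c m v τ t) + M⁻¹ * ∫ t, f3 t) ≤ C4 * C1 ^ 2 * ((4 + C5) * VV δ T c m v) := by
      gcongr
      linarith
    linarith

/-- K6 -/
theorem nx_dev_of (far_mean : FarMean δ) (mMM : MeanMM δ) (vSS : VarSS δ) (wmass : Mass δ) (rr_bd : RrBd δ) : NxDev δ := by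
  have hmaj := near_majorant far_mean mMM vSS wmass rr_bd
  obtain ⟨C2, c2, T2, hC2, hMM⟩ := mMM
  obtain ⟨C3, hC3, hloss⟩ := Pool.Agent.Helper87.UG.loss_pt
  obtain ⟨C6, C1, c6, T6, hC6, hC1, hmaj⟩ := hmaj
  obtain ⟨c7, T7, hmass⟩ := wmass
  refine ⟨C2 + C3 * C6, max (max c2 c6) c7, max (max T2 T6) T7, by positivity, ?_⟩
  intro T c m v hT hc hv M τ u hmM hMc hτ1 hτ2 hu
  simp only [max_le_iff] at hT
  obtain ⟨⟨hT2, hT6⟩, hT7⟩ := hT
  have hA2 : Adm c2 T c m := hc.mono ((le_max_left _ _).trans (le_max_left _ _))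
  have hA6 : Adm c6 T c m := hc.mono ((le_max_right _ _).trans (le_max_left _ _))
  have hA7 : Adm c7 T c m := hc.mono (le_max_right _ _)
  obtain ⟨hT16, hV1, hcL, hm2⟩ := hmaj T c m v hT6 hA6 hv
  obtain ⟨hYM, g, hg1, hg0, hgi, hgb⟩ := hm2 M τ u hmM hMc hτ1 hτ2 hu
  obtain ⟨hMi, hMb⟩ := hMM T c m v hT2 hA2 hv M τ u hmM hMc hτ1 hτ2 hu
  obtain ⟨hwi, -⟩ := hmass T c m v hT7 hA7 hv τ
  have hT0 : 0 < T := by linarith
  have hm1 : 1 ≤ m := hc.2.1
  have hM0 : 0 < M := by linarith
  have hlog : 0 < Real.log T := Real.log_pos (by linarith)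
  have hX : 0 < XX T M := div_pos hlog hM0
  have hV : 0 < VV δ T c m v := by linarith
  have hsm : 0 < √m := Real.sqrt_pos.mpr (by linarith)
  have hw0 : ∀ t, 0 ≤ wt δ T c m v τ t := fun t => wt_nonneg hT0 c m v τ t
  have hpt : ∀ t, |NX (XX T M) (t + u) - M + SS (XX T M) (t + u)| ≤ |MM (XX T M) (t + u) - M| + C3 * g t := by
    intro t
    have h1 := hloss T M (C1 * √m) (t + u) 1 (by linarith) hM0 (by positivity) hYM (Or.inl rfl)
    rw [div_one] at h1
    have h2 := hg1 t
    have h7 : |NX (XX T M) (t + u) - M + SS (XX T M) (t + u)| ≤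
        |NX (XX T M) (t + u) - (MM (XX T M) (t + u) - SS (XX T M) (t + u))| + |MM (XX T M) (t + u) - M| := by
      refine le_trans (le_of_eq ?_) (abs_add_le _ _)
      congr 1
      ring
    have h8 := mul_le_mul_of_nonneg_left h2 hC3.le
    linarith
  have hMe : Measurable fun t => NX (XX T M) (t + u) - M + SS (XX T M) (t + u) :=
    (((NX_meas _ hX).comp (measurable_id.add_const u)).sub_const _).add
      ((SS_cont _).measurable.comp (measurable_id.add_const u))
  have i1 : Integrable fun t => wt δ T c m v τ t * |MM (XX T M) (t + u) - M| + C3 * (wt δ T c m v τ t * g t) :=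
    hMi.add (hgi.const_mul _)
  have hle : ∀ t, wt δ T c m v τ t * |NX (XX T M) (t + u) - M + SS (XX T M) (t + u)| ≤
      wt δ T c m v τ t * |MM (XX T M) (t + u) - M| + C3 * (wt δ T c m v τ t * g t) := by
    intro t
    have := mul_le_mul_of_nonneg_left (hpt t) (hw0 t)
    linarith
  have hres : Integrable fun t => wt δ T c m v τ t * |NX (XX T M) (t + u) - M + SS (XX T M) (t + u)| := by
    refine i1.mono' (hwi.aestronglyMeasurable.mul (by simpa only [Real.norm_eq_abs] using hMe.norm.aestronglyMeasurable))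
      (Eventually.of_forall fun t => ?_)
    rw [Real.norm_eq_abs, abs_mul, abs_of_nonneg (hw0 t), abs_abs]
    exact hle t
  refine ⟨hres, ?_⟩
  have h1 := integral_mono hres i1 hle
  rw [integral_add hMi (hgi.const_mul _), integral_const_mul] at h1
  have h5 : ∫ t, wt δ T c m v τ t * |MM (XX T M) (t + u) - M| ≤ C2 * VV δ T c m v := by
    refine hMb.trans ?_
    apply mul_le_mul_of_nonneg_right _ hV.le
    have : M / Real.log T ≤ 1 := by rw [div_le_one hlog]; linarith
    exact mul_le_of_le_one_right hC2.le this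
  have h6 := mul_le_mul_of_nonneg_left hgb hC3.le
  linarith

/-- K6e -/
theorem wavg_of (far_mean : FarMean δ) (mMM : MeanMM δ) (vSS : VarSS δ) (wmass : Mass δ) (rr_bd : RrBd δ) : WAvg δ := by
  have hmaj := near_majorant far_mean mMM vSS wmass rr_bd
  obtain ⟨C2, c2, T2, hC2, hMM⟩ := mMM
  obtain ⟨C3, hC3, hedge⟩ := edge_pt
  obtain ⟨C6, C1, c6, T6, hC6, hC1, hmaj⟩ := hmaj
  obtain ⟨c7, T7, hmass⟩ := wmass
  refine ⟨C2 + C3 * (2 * C6), max (max c2 c6) (max c7 1), max (max T2 T6) T7, by positivity, ?_⟩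
  intro T c m v hT hc hv τ hτ1 hτ2
  simp only [max_le_iff] at hT
  obtain ⟨⟨hT2, hT6⟩, hT7⟩ := hT
  have hA2 : Adm c2 T c m := hc.mono ((le_max_left _ _).trans (le_max_left _ _))
  have hA6 : Adm c6 T c m := hc.mono ((le_max_right _ _).trans (le_max_left _ _))
  have hA7 : Adm c7 T c m := hc.mono ((le_max_left _ _).trans (le_max_right _ _))
  have hA1 : Adm 1 T c m := hc.mono ((le_max_right _ _).trans (le_max_right _ _))
  obtain ⟨hT16, hV1, hcL, hm2⟩ := hmaj T c m v hT6 hA6 hv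
  obtain ⟨hwi, -⟩ := hmass T c m v hT7 hA7 hv τ
  have hmc : m ≤ c := hA1.m_le_c le_rfl
  have hT0 : 0 < T := by linarith
  have hm1 : 1 ≤ m := hc.2.1
  have hm0 : 0 < m := by linarith
  have hc0 : 0 < c := by linarith
  have hlog : 0 < Real.log T := Real.log_pos (by linarith)
  have hX : 0 < XX T m := div_pos hlog hm0
  have hV : 0 < VV δ T c m v := by linarith
  have hsm : 0 < √m := Real.sqrt_pos.mpr hm0
  have hpi := Real.pi_pos
  have hH : 0 < HH T c := by unfold HH; positivity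
  have hsT : 4 ≤ √T := Real.le_sqrt_of_sq_le (by linarith)
  have hH1 : HH T c ≤ √T := by
    have h1 : HH T c ≤ 4 := by
      unfold HH
      rw [div_le_iff₀ hlog]
      have := Real.pi_lt_four
      nlinarith
    linarith
  set h := HH T c with hh
  have hw0 : ∀ t, 0 ≤ wt δ T c m v τ t := fun t => wt_nonneg hT0 c m v τ t
  obtain ⟨hYM, g1, hg1, hg10, hg1i, hg1b⟩ := hm2 m τ h le_rfl (by linarith) hτ1 hτ2 (by rwa [abs_of_pos hH])
  obtain ⟨-, g2, hg2, hg20, hg2i, hg2b⟩ := hm2 m τ (-h) le_rfl (by linarith) hτ1 hτ2 (by rwa [abs_neg, abs_of_pos hH])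
  set X := XX T m with hXd
  have hq : X / (2 * Real.pi) * (2 * h) = c / m := by
    rw [hXd, hh]
    unfold XX HH
    field_simp
  have hMmeas : Measurable (MM X) := MM_meas X hX
  obtain ⟨hfi, hfb⟩ := avg_abs (w := wt δ T c m v τ) (f := fun x => |MM X x - m|) (h := h)
    (K := C2 * (m / Real.log T) * VV δ T c m v) (wt_cont hT0 c m v τ) hw0
    (by simpa only [Real.norm_eq_abs] using (hMmeas.sub_const m).norm)
    (fun x => abs_nonneg _) hH (fun u hu => hMM T c m v hT2 hA2 hv m τ u le_rfl (by linarith) hτ1 hτ2 (hu.trans hH1))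
  set f : ℝ → ℝ := fun t => ∫ w in (-h)..h, |MM X (t + w) - m| with hf
  have hNi : ∀ t, IntervalIntegrable (fun w => NX X (t + w)) volume (-h) h := by
    intro t
    rw [intervalIntegrable_iff_integrableOn_Icc_of_le (by linarith)]
    exact Pool.Agent.Helper24.UG.NX_intervalIntegrable hX t h
  have hX1 : 1 ≤ X := by
    rw [hXd]
    unfold XX
    rw [le_div_iff₀ hm0]
    linarith
  obtain ⟨CM, hCM, hMMb⟩ := Pool.Agent.Helper57.UG.MM_all
  have hMi : ∀ t, IntervalIntegrable (fun w => MM X (t + w)) volume (-h) h := by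
    intro t
    rw [intervalIntegrable_iff_integrableOn_Icc_of_le (by linarith)]
    refine Measure.integrableOn_of_bounded (M := CM * Real.exp (2 * X) * (1 + Real.log (2 + (|t| + h))))
      isCompact_Icc.measure_lt_top.ne (hMmeas.comp (measurable_const_add t)).aestronglyMeasurable ?_
    filter_upwards [ae_restrict_mem measurableSet_Icc] with w hw
    rw [Real.norm_eq_abs]
    refine (hMMb X (t + w) hX1).trans ?_
    have h1 : |t + w| ≤ |t| + h := by
      have := abs_add_le t w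
      have := abs_le.2 hw
      linarith
    have h2 := abs_nonneg (t + w)
    have h3 : Real.log (2 + |t + w|) ≤ Real.log (2 + (|t| + h)) := Real.log_le_log (by linarith) (by linarith)
    have h4 : 0 ≤ CM * Real.exp (2 * X) := by positivity
    exact mul_le_mul_of_nonneg_left (by linarith) h4
  have hSi : ∀ t, IntervalIntegrable (fun w => SS X (t + w)) volume (-h) h := fun t =>
    ((SS_cont X).comp (by fun_prop : Continuous fun u : ℝ => t + u)).intervalIntegrable _ _
  have hid : ∀ t, X / (2 * Real.pi) * (∫ w in (-h)..h, NX X (t + w)) - c + WS T c m t =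
      X / (2 * Real.pi) * (∫ w in (-h)..h, (NX X (t + w) - (MM X (t + w) - SS X (t + w)))) +
        X / (2 * Real.pi) * ∫ w in (-h)..h, (MM X (t + w) - m) := by
    intro t
    have e1 : ∫ w in (-h)..h, (NX X (t + w) - (MM X (t + w) - SS X (t + w))) =
        (∫ w in (-h)..h, NX X (t + w)) - ((∫ w in (-h)..h, MM X (t + w)) - ∫ w in (-h)..h, SS X (t + w)) := by
      rw [intervalIntegral.integral_sub (hNi t) ((hMi t).sub (hSi t)), intervalIntegral.integral_sub (hMi t) (hSi t)]
    have e2 : ∫ w in (-h)..h, (MM X (t + w) - m) = (∫ w in (-h)..h, MM X (t + w)) - 2 * h * m := by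
      rw [intervalIntegral.integral_sub (hMi t) intervalIntegrable_const, intervalIntegral.integral_const, smul_eq_mul]
      ring
    have e3 : X / (2 * Real.pi) * (2 * h * m) = c := by
      rw [← mul_assoc, hq]
      field_simp
    have e4 : WS T c m t = X / (2 * Real.pi) * ∫ w in (-h)..h, SS X (t + w) := rfl
    rw [e1, e2, e4]
    linear_combination e3
  have hq0 : 0 < X / (2 * Real.pi) := by positivity
  have hpt : ∀ t, |X / (2 * Real.pi) * (∫ w in (-h)..h, NX X (t + w)) - c + WS T c m t| ≤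
      C3 * (g1 t + g2 t) + X / (2 * Real.pi) * f t := by
    intro t
    rw [hid t]
    refine (abs_add_le _ _).trans (add_le_add ?_ ?_)
    · have h1 := hedge T m (C1 * √m) h t (by linarith) hm0 (by linarith) (by positivity) hYM hH
      have h2 := hg1 t
      have h3 := hg2 t
      rw [← sub_eq_add_neg] at h3
      refine h1.trans (mul_le_mul_of_nonneg_left ?_ hC3.le)
      linarith
    · rw [abs_mul, abs_of_pos hq0]
      refine mul_le_mul_of_nonneg_left ?_ hq0.le
      rw [← Real.norm_eq_abs]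
      refine (intervalIntegral.norm_integral_le_integral_norm (by linarith)).trans (le_of_eq ?_)
      simp only [Real.norm_eq_abs, hf]
  have hmeas : Measurable fun t => X / (2 * Real.pi) * (∫ w in (-h)..h, NX X (t + w)) - c + WS T c m t := by
    have m1 : Measurable fun t : ℝ => ∫ w in (-h)..h, NX X (t + w) := by
      have h1 : StronglyMeasurable fun t : ℝ => ∫ w, NX X (t + w) ∂(volume.restrict (Ioc (-h) h)) := by
        apply StronglyMeasurable.integral_prod_right (f := fun t w => NX X (t + w))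
        exact ((NX_meas X hX).comp (by fun_prop : Measurable fun p : ℝ × ℝ => p.1 + p.2)).stronglyMeasurable
      have h2 : (fun t : ℝ => ∫ w in (-h)..h, NX X (t + w)) =
          fun t : ℝ => ∫ w, NX X (t + w) ∂(volume.restrict (Ioc (-h) h)) := by
        funext t
        rw [intervalIntegral.integral_of_le (by linarith)]
      rw [h2]
      exact h1.measurable
    have m2 : Measurable fun t : ℝ => WS T c m t := by
      have h1 : StronglyMeasurable fun t : ℝ => ∫ w, SS X (t + w) ∂(volume.restrict (Ioc (-h) h)) := by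
        apply StronglyMeasurable.integral_prod_right (f := fun t w => SS X (t + w))
        exact ((SS_cont X).measurable.comp (by fun_prop : Measurable fun p : ℝ × ℝ => p.1 + p.2)).stronglyMeasurable
      have h2 : (fun t : ℝ => WS T c m t) =
          fun t : ℝ => X / (2 * Real.pi) * ∫ w, SS X (t + w) ∂(volume.restrict (Ioc (-h) h)) := by
        funext t
        show X / (2 * Real.pi) * (∫ w in (-h)..h, SS X (t + w)) = _
        rw [intervalIntegral.integral_of_le (by linarith)]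
      rw [h2]
      exact h1.measurable.const_mul _
    exact ((m1.const_mul _).sub_const c).add m2
  have i12 : Integrable fun t => wt δ T c m v τ t * g1 t + wt δ T c m v τ t * g2 t := hg1i.add hg2i
  have i3 : Integrable fun t => C3 * (wt δ T c m v τ t * g1 t + wt δ T c m v τ t * g2 t) := i12.const_mul C3
  have i4 : Integrable fun t => X / (2 * Real.pi) * (wt δ T c m v τ t * f t) := hfi.const_mul _
  have i1 : Integrable fun t => C3 * (wt δ T c m v τ t * g1 t + wt δ T c m v τ t * g2 t) +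
      X / (2 * Real.pi) * (wt δ T c m v τ t * f t) := i3.add i4
  have hle : ∀ t, wt δ T c m v τ t * |X / (2 * Real.pi) * (∫ w in (-h)..h, NX X (t + w)) - c + WS T c m t| ≤
      C3 * (wt δ T c m v τ t * g1 t + wt δ T c m v τ t * g2 t) + X / (2 * Real.pi) * (wt δ T c m v τ t * f t) := by
    intro t
    have := mul_le_mul_of_nonneg_left (hpt t) (hw0 t)
    linarith
  have hres : Integrable fun t => wt δ T c m v τ t *
      |X / (2 * Real.pi) * (∫ w in (-h)..h, NX X (t + w)) - c + WS T c m t| := by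
    refine i1.mono' (hwi.aestronglyMeasurable.mul (by simpa only [Real.norm_eq_abs] using hmeas.norm.aestronglyMeasurable))
      (Eventually.of_forall fun t => ?_)
    rw [Real.norm_eq_abs, abs_mul, abs_of_nonneg (hw0 t), abs_abs]
    exact hle t
  refine ⟨hres, ?_⟩
  have h1 := integral_mono hres i1 hle
  rw [integral_add i3 i4, integral_const_mul, integral_const_mul, integral_add hg1i hg2i] at h1
  have h2 : C3 * ((∫ t, wt δ T c m v τ t * g1 t) + ∫ t, wt δ T c m v τ t * g2 t) ≤ C3 * (2 * C6 * VV δ T c m v) := by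
    refine mul_le_mul_of_nonneg_left ?_ hC3.le
    linarith
  have h3 : X / (2 * Real.pi) * (∫ t, wt δ T c m v τ t * f t) ≤ C2 * VV δ T c m v := by
    calc X / (2 * Real.pi) * (∫ t, wt δ T c m v τ t * f t) ≤
          X / (2 * Real.pi) * (C2 * (m / Real.log T) * VV δ T c m v * (2 * h)) := mul_le_mul_of_nonneg_left hfb hq0.le
      _ = (X / (2 * Real.pi) * (2 * h)) * m * (C2 / Real.log T * VV δ T c m v) := by ring
      _ = c / Real.log T * (C2 * VV δ T c m v) := by
          rw [hq]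
          field_simp
      _ ≤ 1 * (C2 * VV δ T c m v) := by
          apply mul_le_mul_of_nonneg_right _ (by positivity)
          rw [div_le_one hlog]
          linarith
      _ = _ := one_mul _
  calc _ ≤ _ := h1
    _ ≤ C3 * (2 * C6 * VV δ T c m v) + C2 * VV δ T c m v := add_le_add h2 h3
    _ = _ := by ring

end Pool.Agent.Helper36.X.H69
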