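import Pool.Agent.Helper26.UW.Eul
import Pool.Agent.Helper36.X.Res
import Pool.Agent.Helper7.UW.R3

/-!
# UW, block T2: moments of the prime sum under the weight
-/

set_option autoImplicit false
open MeasureTheory Set Filter Topology
open Pool.Agent.Helper57.Zeta Pool.Agent.Helper57.LH Pool.Agent.Helper57.ED Pool.Agent.Helper54.LG
open Pool.Agent.Helper69.UG (pt XX NR NM WW)
open Pool.Agent.Helper69.UV (ww HH)
open Pool.Agent.Helper69.UW

namespace Pool.Agent.Helper26.UW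
end Pool.Agent.Helper26.UW

namespace Pool.Agent.Helper36.X.H26

open Pool.Agent.Helper26.UW
open Pool.Agent.Helper60.UV (Rr Vr Ar mass Ar_nonneg Ar_le)
open Pool.Agent.Helper36.UW (adm_facts rr_ne rr_supp rp_le PR_le PR_prime)
open Pool.Agent.Helper36.X (v_facts res_facts rr_bd)

variable {δ : ℝ}

lemma rr_le_coeff {T c m v : ℝ} (n : ℕ) (_ : n ≠ 0) :
    |rr δ T c m v n| ≤ (HP (PR δ T c m) (rp T c v) n).coeff 0 := by
  classical
  by_cases h : rr δ T c m v n = 0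
  · rw [h, abs_zero]
    exact NN_HP n 0
  · obtain ⟨h1, h2, h3⟩ := rr_ne h
    have h4 : rr δ T c m v n = ∏ p ∈ n.primeFactors, rp T c v p := by
      unfold rr
      rw [if_pos ⟨h1, h2, h3⟩]
    rw [h4, Finset.abs_prod]
    unfold HP
    rw [Polynomial.coeff_zero_prod]
    apply le_of_eq
    symm
    rw [← Finset.prod_subset h2]
    · refine Finset.prod_congr rfl fun p hp => ?_
      have hf : n.factorization p = 1 := by
        have h5 := h1.natFactorization_le_one p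
        have h6 : n.factorization p ≠ 0 := by
          rw [← Finsupp.mem_support_iff, Nat.support_factorization]
          exact hp
        omega
      rw [hf]
      simp [gp]
    · intro p _ hp
      have hf : n.factorization p = 0 := by
        rw [← Finsupp.notMem_support_iff, Nat.support_factorization]
        exact hp
      rw [hf]
      simp [gp]

lemma card_PR {T c m : ℝ} (hT : 1 ≤ T) (hδ : 0 < δ) (hm : 0 < m) :
    ((PR δ T c m).card : ℝ) ≤ T ^ (δ / (64 * m)) := by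
  have hT0 : 0 < T := by linarith
  have h1 : PR δ T c m ⊆ Finset.Icc 1 ⌊T ^ (δ / (64 * m))⌋₊ := by
    intro p hp
    have hp1 := (PR_prime p hp).one_lt.le
    exact Finset.mem_Icc.mpr ⟨hp1, Nat.le_floor (PR_le hT0.le hp)⟩
  have h2 := Finset.card_le_card h1
  rw [Nat.card_Icc, Nat.add_sub_cancel] at h2
  have h3 : ((PR δ T c m).card : ℝ) ≤ (⌊T ^ (δ / (64 * m))⌋₊ : ℝ) := by exact_mod_cast h2
  exact h3.trans (Nat.floor_le (by positivity))

/-- T2 -/
theorem pmom (hδ : 0 < δ) (hδ1 : δ ≤ 1 / 32) : ∃ C c0 T0 : ℝ, 0 < C ∧ ∀ T c m v : ℝ, T0 ≤ T → Adm c0 T c m →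
    |v| ≤ vv δ c m → ∀ (s τ : ℝ) (k : ℕ), 0 < s → s ≤ 1 → (k : ℝ) ≤ 4 * m →
    Integrable (fun t => wt δ T c m v τ t * ‖PP1 δ T c m v t‖ ^ (2 * k)) ∧
    ∫ t, wt δ T c m v τ t * ‖PP1 δ T c m v t‖ ^ (2 * k) ≤
      C * (k.factorial / s ^ k) ^ 2 * Real.exp ((2 * s + s ^ 2) * KK δ T c m v) * VV δ T c m v := by
  have hR3 := Pool.Agent.Helper7.UW.PR_facts hδ hδ1
  obtain ⟨c1, T1, hf⟩ := res_facts hδ hδ1 hR3
  obtain ⟨c2, T2, hb⟩ := rr_bd hδ hδ1
  obtain ⟨c3, T3, he⟩ := Pool.Agent.Helper36.X.VV_exp_of hδ hδ1 hR3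
  obtain ⟨T4, hT4, hg⟩ := Pool.Agent.Helper60.UG.growth
  refine ⟨2 * Real.exp (9 / 8) + 1, max (max c1 c2) (max c3 (Real.exp 12)),
    max (max T1 T2) (max T3 (max T4 (Real.exp (Real.exp 1)))), by positivity, fun T c m v hT hA hv s τ k hs hs1 hk => ?_⟩
  have hA1 : Adm c1 T c m := hA.mono ((le_max_left _ _).trans (le_max_left _ _))
  have hA2 : Adm c2 T c m := hA.mono ((le_max_right _ _).trans (le_max_left _ _))
  have hA3 : Adm c3 T c m := hA.mono ((le_max_left _ _).trans (le_max_right _ _))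
  have hA4 : Adm (Real.exp 12) T c m := hA.mono ((le_max_right _ _).trans (le_max_right _ _))
  have he12 : (1:ℝ) < Real.exp 12 := by linarith [Real.add_one_le_exp (12:ℝ)]
  have hT5 : Real.exp (Real.exp 1) ≤ T := ((le_max_right _ _).trans (le_max_right _ _)).trans ((le_max_right _ _).trans hT)
  have hT6 : T4 ≤ T := ((le_max_left _ _).trans (le_max_right _ _)).trans ((le_max_right _ _).trans hT)
  obtain ⟨hT1, hm1, hmc, hLL, hL, hcL⟩ := adm_facts he12.le hT5 hA4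
  obtain ⟨hl, _, hvm⟩ := v_facts hδ hδ1 le_rfl hA4 hv
  obtain ⟨_, _, _, hx, hx2⟩ := hf T c m v (((le_max_left _ _).trans (le_max_left _ _)).trans hT) hA1 hv
  have hbd := hb T c m v (((le_max_right _ _).trans (le_max_left _ _)).trans hT) hA2 hv
  obtain ⟨hE, _⟩ := he T c m v (((le_max_left _ _).trans (le_max_right _ _)).trans hT) hA3 hv
  have hV := (hbd 0).2
  have hT0 : 0 < T := by linarith
  have hm0 : 0 < m := by linarith
  set Q := PR δ T c m with hQdef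
  set r := rp T c v with hrdef
  set a := rr δ T c m v with hadef
  set L : ℕ := ⌊T ^ (δ / (64 * m))⌋₊ with hLdef
  have hLle : (L : ℝ) ≤ T ^ (δ / (64 * m)) := Nat.floor_le (by positivity)
  have hL1 : 1 ≤ L := by
    rw [hLdef, Nat.one_le_floor_iff]
    exact Real.one_le_rpow hT1 (by positivity)
  have hQ : ∀ p ∈ Q, p.Prime ∧ p ≤ L := fun p hp => ⟨PR_prime p hp, Nat.le_floor (PR_le hT0.le hp)⟩
  have ha : ∀ n, a n ≠ 0 → 1 ≤ n ∧ n ≤ NR T ∧ n.primeFactors ⊆ Q := fun n hn => by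
    obtain ⟨h1, h2, _⟩ := rr_supp hδ hT1 hm0 hn
    exact ⟨h1, h2, (rr_ne hn).2.1⟩
  set M := NR T * L ^ k with hMdef
  -- the exponents
  have hexp : δ / (64 * m) * k ≤ δ / 16 := by
    calc δ / (64 * m) * k ≤ δ / (64 * m) * (4 * m) := by gcongr
      _ = δ / 16 := by field_simp; ring
  have hLk : (T ^ (δ / (64 * m))) ^ k ≤ T ^ (1 / 512 : ℝ) := by
    rw [← Real.rpow_natCast, ← Real.rpow_mul hT0.le]
    exact Real.rpow_le_rpow_of_exponent_le hT1 (by linarith)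
  have hNR := Pool.Agent.Helper60.UG.NR_le hT0.le
  have hM : (M : ℝ) ≤ T ^ (1 / 8 + 1 / 512 : ℝ) := by
    rw [hMdef, Nat.cast_mul, Nat.cast_pow]
    calc (NR T : ℝ) * (L : ℝ) ^ k ≤ T ^ (1 / 8 : ℝ) * (T ^ (δ / (64 * m))) ^ k := by gcongr
      _ ≤ T ^ (1 / 8 : ℝ) * T ^ (1 / 512 : ℝ) := by gcongr
      _ = T ^ (1 / 8 + 1 / 512 : ℝ) := by rw [← Real.rpow_add hT0]
  have hM1 : 1 ≤ M := Nat.mul_pos (Pool.Agent.Helper60.UG.one_le_NR hT1) (Nat.pow_pos hL1)
  -- coefficients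
  have hvk : √m ^ k ≤ T ^ (1 / 8 : ℝ) := by
    have h9 : √m ^ k = Real.exp (k * (Real.log m / 2)) := by
      rw [← Real.log_sqrt hm0.le, mul_comm, Real.exp_mul, Real.exp_log (by positivity), Real.rpow_natCast]
    rw [h9, Real.rpow_def_of_pos hT0]
    refine Real.exp_le_exp.2 ?_
    have h10 : Real.log m ≤ Real.log (Real.log T) := Real.log_le_log hm0 (hmc.trans hcL)
    have h11 : 0 ≤ Real.log m := Real.log_nonneg hm1
    have h13 := hA4.2.2.2.2
    have h15 : m * Real.log (Real.log T) ≤ c * Real.log (Real.log T) := mul_le_mul_of_nonneg_right hmc (by linarith)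
    calc (k : ℝ) * (Real.log m / 2) ≤ 4 * m * (Real.log m / 2) := mul_le_mul_of_nonneg_right hk (by positivity)
      _ ≤ 4 * m * (Real.log (Real.log T) / 2) := by gcongr
      _ = 2 * (m * Real.log (Real.log T)) := by ring
      _ ≤ Real.log T * (1 / 8) := by linarith
  have hcoef : ∀ n, |bk Q r a k n| ≤ T ^ (1 / 4 : ℝ) := by
    intro n
    have h1 := bk_triv (Q := Q) (r := r) (a := a) (B := T ^ (1 / 192 : ℝ)) (V := √m) (fun n => (hbd n).1)
      (Real.sqrt_nonneg m) (fun p _ => (rp_le T c v p).2.trans hvm) k n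
    refine h1.trans ?_
    have h2 : ((Q.card : ℝ) * √m) ^ k ≤ T ^ (1 / 512 : ℝ) * T ^ (1 / 8 : ℝ) := by
      rw [mul_pow]
      refine mul_le_mul ?_ hvk (by positivity) (by positivity)
      exact (pow_le_pow_left₀ (Nat.cast_nonneg _) (card_PR hT1 hδ hm0) k).trans hLk
    calc ((Q.card : ℝ) * √m) ^ k * T ^ (1 / 192 : ℝ) ≤ T ^ (1 / 512 : ℝ) * T ^ (1 / 8 : ℝ) * T ^ (1 / 192 : ℝ) := by gcongr
      _ = T ^ (1 / 512 + 1 / 8 + 1 / 192 : ℝ) := by rw [← Real.rpow_add hT0, ← Real.rpow_add hT0]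
      _ ≤ T ^ (1 / 4 : ℝ) := Real.rpow_le_rpow_of_exponent_le hT1 (by norm_num)
  have hAr : Ar (bk Q r a k) M ≤ T := by
    calc Ar (bk Q r a k) M ≤ M * T ^ (1 / 4 : ℝ) := Ar_le hcoef
      _ ≤ T ^ (1 / 8 + 1 / 512 : ℝ) * T ^ (1 / 4 : ℝ) := by gcongr
      _ = T ^ (1 / 8 + 1 / 512 + 1 / 4 : ℝ) := by rw [← Real.rpow_add hT0]
      _ ≤ T ^ (1 : ℝ) := Real.rpow_le_rpow_of_exponent_le hT1 (by norm_num)
      _ = T := Real.rpow_one T
  have hfun : (fun t => wt δ T c m v τ t * ‖PP1 δ T c m v t‖ ^ (2 * k)) =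
      fun t => PW (WW T) (t - τ) * ‖Rr (bk Q r a k) M t‖ ^ 2 := by
    funext t
    rw [hMdef, Rr_pow hQ ha t k, norm_mul, norm_pow, mul_pow, ← pow_mul, mul_comm k 2]
    unfold wt
    rw [mul_assoc]
    rfl
  have hms := mass (bk Q r a k) M (Pool.Agent.Helper60.UG.WW_pos hT0) τ
  rw [hfun]
  refine ⟨hms.1, ?_⟩
  have h1 := (abs_le.mp hms.2).2
  have h2 := Vr_bk (a := a) (r := r) hQ ha (fun n hn => rr_le_coeff n hn) hs hs1
    (fun p hp => (hx p hp).trans (by linarith)) k M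
  have h3 : Ar (bk Q r a k) M ^ 2 * Real.exp (-(WW T / M)) ≤ 1 := by
    have h4 := Ar_nonneg (bk Q r a k) M
    have h5 : (M : ℝ) ≤ T ^ (1 / 4 : ℝ) := hM.trans (Real.rpow_le_rpow_of_exponent_le hT1 (by norm_num))
    have h6 := Pool.Agent.Helper60.UG.exp_WW hT1 hM1 h5
    have h8 : T ^ 2 ≤ T ^ 4 := pow_le_pow_right₀ hT1 (by norm_num)
    calc Ar (bk Q r a k) M ^ 2 * Real.exp (-(WW T / M)) ≤ T ^ 2 * Real.exp (-(T ^ (1 / 2 : ℝ))) := by gcongr
      _ ≤ T ^ 4 * Real.exp (-(T ^ (1 / 2 : ℝ))) := by gcongr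
      _ ≤ 1 / T := hg T hT6
      _ ≤ 1 := by rw [div_le_one hT0]; exact hT1
  have hKK0 : 0 ≤ KK δ T c m v := by
    unfold KK
    exact Finset.sum_nonneg fun p _ => by positivity
  have hKe : ∑ p ∈ Q, r p ^ 2 / p = KK δ T c m v := rfl
  rw [hKe] at h2
  have h4 : Real.exp ((1 + s) ^ 2 * KK δ T c m v + 9 / 2 * ∑ p ∈ Q, (r p ^ 2 / p) ^ 2) ≤
      2 * Real.exp (9 / 8) * Real.exp ((2 * s + s ^ 2) * KK δ T c m v) * VV δ T c m v := by
    have e1 : (1 + s) ^ 2 * KK δ T c m v + 9 / 2 * ∑ p ∈ Q, (r p ^ 2 / p) ^ 2 ≤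
        (2 * s + s ^ 2) * KK δ T c m v + KK δ T c m v + 9 / 8 := by nlinarith
    calc Real.exp ((1 + s) ^ 2 * KK δ T c m v + 9 / 2 * ∑ p ∈ Q, (r p ^ 2 / p) ^ 2) ≤
        Real.exp ((2 * s + s ^ 2) * KK δ T c m v + KK δ T c m v + 9 / 8) := Real.exp_le_exp.mpr e1
      _ = Real.exp ((2 * s + s ^ 2) * KK δ T c m v) * Real.exp (KK δ T c m v) * Real.exp (9 / 8) := by
          rw [Real.exp_add, Real.exp_add]
      _ ≤ Real.exp ((2 * s + s ^ 2) * KK δ T c m v) * (2 * VV δ T c m v) * Real.exp (9 / 8) := by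
          gcongr
          linarith
      _ = _ := by ring
  set F : ℝ := (k.factorial / s ^ k) ^ 2 with hF
  have hF1 : 1 ≤ F := by
    have h5 : (1:ℝ) ≤ k.factorial / s ^ k := by
      rw [le_div_iff₀ (by positivity), one_mul]
      have h6 : (1:ℝ) ≤ k.factorial := by exact_mod_cast Nat.one_le_iff_ne_zero.mpr (Nat.factorial_ne_zero _)
      exact (pow_le_one₀ hs.le hs1).trans h6
    exact one_le_pow₀ h5
  have hE1 : 1 ≤ Real.exp ((2 * s + s ^ 2) * KK δ T c m v) := Real.one_le_exp (by positivity)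
  have h5 : 1 ≤ F * Real.exp ((2 * s + s ^ 2) * KK δ T c m v) * VV δ T c m v :=
    one_le_mul_of_one_le_of_one_le (one_le_mul_of_one_le_of_one_le hF1 hE1) hV
  have h6 : F * Real.exp ((1 + s) ^ 2 * KK δ T c m v + 9 / 2 * ∑ p ∈ Q, (r p ^ 2 / p) ^ 2) ≤
      F * (2 * Real.exp (9 / 8) * Real.exp ((2 * s + s ^ 2) * KK δ T c m v) * VV δ T c m v) := by gcongr
  calc ∫ t, PW (WW T) (t - τ) * ‖Rr (bk Q r a k) M t‖ ^ 2 ≤ Vr (bk Q r a k) M + 1 := by linarith
    _ ≤ F * (2 * Real.exp (9 / 8) * Real.exp ((2 * s + s ^ 2) * KK δ T c m v) * VV δ T c m v) +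
        F * Real.exp ((2 * s + s ^ 2) * KK δ T c m v) * VV δ T c m v := by linarith
    _ = (2 * Real.exp (9 / 8) + 1) * F * Real.exp ((2 * s + s ^ 2) * KK δ T c m v) * VV δ T c m v := by ring

end Pool.Agent.Helper36.X.H26
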