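import Pool.Agent.Helper36.X.Close
import Pool.Agent.Helper36.X.KKb
import Pool.Agent.Helper36.X.Mass
import Pool.Agent.Helper36.X.VSS
import Pool.Agent.Helper36.X.Arith
import Pool.Agent.Helper36.X.Fm
import Pool.Agent.Helper36.X.MGY
import Pool.Agent.Helper36.X.MLast
import Pool.Agent.Helper36.X.Z6
import Pool.Agent.Helper36.X.NxDev
import Pool.Agent.Helper36.X.Mmm
import Pool.Agent.Helper36.X.Pmom
import Pool.Agent.Helper36.X.T3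
import Pool.Agent.Helper66.UW.Cell
import Pool.Agent.Helper87.UX.Far

/-! # Project X, part (a): the ports with `|v| ≤ vv δ c m`, without hypotheses (`rr_bd` and `KK_bd` have the same namespace) -/

set_option autoImplicit false
open MeasureTheory Set Filter Topology
open Pool.Agent.Helper57.Zeta Pool.Agent.Helper57.LH Pool.Agent.Helper57.ED Pool.Agent.Helper54.LG
open Pool.Agent.Helper93.UG (zc IsOrd sp Glong Gshort)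
open Pool.Agent.Helper69.UG (pt NX XX NR NM WW near far)
open Pool.Agent.Helper69.UV (ww HH)
open Pool.Agent.Helper69.UW

namespace Pool.Agent.Helper36.X

variable {δ : ℝ}
/-! ### (a) ports, `|v| ≤ vv δ c m` -/

/-- R4 (Rankin for the number of prime factors: `KR ≥ 256 m - 1` against `∑ rp²/p ≤ 15 m/ll`) -/
theorem WP_bd (hδ : 0 < δ) (hδ1 : δ ≤ 1 / 32) : ∃ c0 T0 : ℝ, ∀ T c m v : ℝ, T0 ≤ T → Adm c0 T c m → |v| ≤ vv δ c m →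
    ∀ p ∈ PR δ T c m,
    (1 - δ) * rp T c v p ^ 2 * VV δ T c m v ≤ rp T c v p * WP δ T c m v p ∧
    |WP δ T c m v p| ≤ |rp T c v p| * VV δ T c m v :=
    Pool.Agent.Helper36.X.H7.WP_bd hδ hδ1

/-- R4' -/
theorem VV_exp (hδ : 0 < δ) (hδ1 : δ ≤ 1 / 32) : ∃ c0 T0 : ℝ, ∀ T c m v : ℝ, T0 ≤ T → Adm c0 T c m → |v| ≤ vv δ c m →
    Real.exp (KK δ T c m v) / 2 ≤ VV δ T c m v ∧ VV δ T c m v ≤ Real.exp (KK δ T c m v) :=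
    Pool.Agent.Helper36.X.H7.VV_exp hδ hδ1

/-- R5 (`∑ 1/p ≤ ll`, `|v| ll ≤ 6 √m`, `ll ≤ log c ≤ √m`) -/
theorem prod_le_VV (hδ : 0 < δ) (hδ1 : δ ≤ 1 / 32) : ∃ C c0 T0 : ℝ, 0 < C ∧ ∀ T c m v : ℝ, T0 ≤ T → Adm c0 T c m →
    |v| ≤ vv δ c m →
    ∏ p ∈ PR δ T c m, (1 + (2 + |rp T c v p|) ^ 2 / p + 2 * (2 + 2 * |rp T c v p|) ^ 2 / p ^ 2) ≤
      C * Real.exp (C * √m) * VV δ T c m v :=
    Pool.Agent.Helper36.X.H7.prod_le_VV hδ hδ1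

/-- R7: fourth moment, any centre -/
theorem m4 (hδ : 0 < δ) (hδ1 : δ ≤ 1 / 32) : ∃ A c0 T0 : ℝ, ∀ T c m v : ℝ, T0 ≤ T → Adm c0 T c m → |v| ≤ vv δ c m →
    ∀ τ : ℝ, Integrable (fun t => PW (WW T) (t - τ) * ‖RR δ T c m v t‖ ^ 4) ∧
    ∫ t, PW (WW T) (t - τ) * ‖RR δ T c m v t‖ ^ 4 ≤ Real.exp (A * c) * VV δ T c m v ^ 2 :=
    Pool.Agent.Helper36.X.H60.m4 hδ hδ1

/-- R8: mass -/
theorem wmass (hδ : 0 < δ) (hδ1 : δ ≤ 1 / 32) : ∃ c0 T0 : ℝ, ∀ T c m v : ℝ, T0 ≤ T → Adm c0 T c m → |v| ≤ vv δ c m →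
    ∀ τ : ℝ, Integrable (wt δ T c m v τ) ∧ |(∫ t, wt δ T c m v τ t) - VV δ T c m v| ≤ VV δ T c m v / T :=
    Pool.Agent.Helper36.X.H60.wmass hδ hδ1

/-- R9: mean of a cosine -/
theorem ecos (hδ : 0 < δ) (hδ1 : δ ≤ 1 / 32) : ∃ c0 T0 : ℝ, ∀ T c m v : ℝ, T0 ≤ T → Adm c0 T c m → |v| ≤ vv δ c m →
    ∀ τ u : ℝ, ∀ n : ℕ, IsPrimePow n → (n : ℝ) ≤ Real.exp (XX T m) →
    |(∫ t, wt δ T c m v τ t * Real.cos ((t + u) * Real.log n)) -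
      (if n ∈ PR δ T c m then WP δ T c m v n / √n * Real.cos (u * Real.log n) else 0)| ≤ 1 / T :=
    Pool.Agent.Helper36.X.H60.ecos hδ hδ1

/-- R11: second moment of the prime sum, all kernel scales -/
theorem vSS (hδ : 0 < δ) (hδ1 : δ ≤ 1 / 32) : ∃ C c0 T0 : ℝ, 0 < C ∧ ∀ T c m v : ℝ, T0 ≤ T → Adm c0 T c m →
    |v| ≤ vv δ c m → ∀ M τ u : ℝ, m ≤ M → M ≤ 2 * c →
    ∫ t, wt δ T c m v τ t * SS (XX T M) (t + u) ^ 2 ≤ C * M * VV δ T c m v :=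
    Pool.Agent.Helper36.X.H65.vSS_of (rr_bd hδ hδ1)

/-- M4: arithmetic bound, from R1-R6, M2, M3 -/
theorem arith (hδ : 0 < δ) (hδ1 : δ ≤ 1 / 32) : ∃ C c0 T0 : ℝ, 0 < C ∧ ∀ T c m v : ℝ, T0 ≤ T → Adm c0 T c m →
    |v| ≤ vv δ c m →
    ∀ σ, 1 / 2 + 1 / Real.log T ≤ σ → σ ≤ 3 / 4 → ∀ q : ℕ → ℝ, (∀ n, |q n| ≤ |rr δ T c m v n| * (n : ℝ) ^ (σ - 1 / 2)) →
    Summable (fun j : ℕ => ((∑ h ∈ j.divisors, gg T (PR δ T c m) h * q (j / h)) - q j) ^ 2 * (j : ℝ) ^ (-2 * σ)) ∧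
    ∑' j : ℕ, ((∑ h ∈ j.divisors, gg T (PR δ T c m) h * q (j / h)) - q j) ^ 2 * (j : ℝ) ^ (-2 * σ) ≤
      C * T ^ (-(σ - 1 / 2 - 1 / Real.log T) / 16) * Real.exp (C * √m) * VV δ T c m v :=
    Pool.Agent.Helper36.X.H90.arith hδ hδ1

/-- M5: the weighted second moment, from M1, M4 -/
theorem fm (hδ : 0 < δ) (hδ1 : δ ≤ 1 / 32) : ∃ C c0 T0 : ℝ, 0 < C ∧ ∀ T c m v : ℝ, T0 ≤ T → Adm c0 T c m →
    |v| ≤ vv δ c m →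
    ∀ τ u y : ℝ, |τ| ≤ 2 * T → |u| ≤ 2 * T → 1 ≤ y → y ≤ Real.log T / 4 →
    Integrable (fun t => wt δ T c m v τ t * ‖FF T (PR δ T c m) (pt T y (t + u)) - 1‖ ^ 2) ∧
    ∫ t, wt δ T c m v τ t * ‖FF T (PR δ T c m) (pt T y (t + u)) - 1‖ ^ 2 ≤
      C * Real.exp (C * √m - y / 16) * VV δ T c m v :=
    Pool.Agent.Helper36.X.H64.fm_of (fun h1 h2 _ h3 => Pool.Agent.Helper36.UW.rr_supp hδ h1 h2 h3) (rr_bd hδ hδ1) (arith hδ hδ1)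

/-- Z4: mean of the majorant, from M5 -/
theorem mGY (hδ : 0 < δ) (hδ1 : δ ≤ 1 / 32) : ∃ C c0 T0 : ℝ, 0 < C ∧ ∀ T c m v : ℝ, T0 ≤ T → Adm c0 T c m →
    |v| ≤ vv δ c m →
    ∀ τ u y : ℝ, |τ| ≤ 2 * T → |u| ≤ T → 2 ≤ y → ∀ K : ℕ, 1 ≤ K → 4 * 2 ^ K * y ≤ Real.log T / 4 →
    Integrable (fun t => wt δ T c m v τ t * GY T (PR δ T c m) y K (t + u)) ∧
    ∫ t, wt δ T c m v τ t * GY T (PR δ T c m) y K (t + u) ≤ C * Real.exp (C * √m - y / 64) * VV δ T c m v :=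
    Pool.Agent.Helper36.X.H3.mGY_of hδ hδ1 (fm hδ hδ1) (wmass hδ hδ1)

/-- Z5: mean of the last term, from M5, R7 -/
theorem mLast (hδ : 0 < δ) (hδ1 : δ ≤ 1 / 32) : ∃ c0 T0 : ℝ, ∀ T c m v : ℝ, T0 ≤ T → Adm c0 T c m → |v| ≤ vv δ c m →
    ∀ τ u y : ℝ, |τ| ≤ 2 * T → |u| ≤ T → 2 ≤ y → ∀ K : ℕ, 1 ≤ K → 4 * 2 ^ K * y ≤ Real.log T / 4 →
    Real.log T / 4 < 8 * 2 ^ K * y →
    Integrable (fun t => wt δ T c m v τ t * (Real.log (4 + |t + u|) * cen T (PR δ T c m) y (K - 1) (t + u))) ∧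
    ∫ t, wt δ T c m v τ t * (Real.log (4 + |t + u|) * cen T (PR δ T c m) y (K - 1) (t + u)) ≤
      T ^ (-(1 / 1000) : ℝ) * VV δ T c m v :=
    Pool.Agent.Helper36.X.H17.mLast_of (fm hδ hδ1) (m4 hδ hδ1)

/-- Z6: zeros with `|β - 1/2| ≥ 1/64`, from `deep`, R7, Z2; all kernel scales -/
theorem mDeep (hδ : 0 < δ) (hδ1 : δ ≤ 1 / 32) : ∃ c0 T0 : ℝ, ∀ T c m v : ℝ, T0 ≤ T → Adm c0 T c m → |v| ≤ vv δ c m →
    ∀ M τ u : ℝ, m ≤ M → M ≤ 2 * c → |τ| ≤ 2 * T → |u| ≤ T →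
    Integrable (fun t => wt δ T c m v τ t * ∑' ρ : ZS, mx ρ * (if |(ρ : ℂ).re - 1 / 2| < 1 / 64 then 0 else
      1 / (1 + zb (XX T M) (t + u) ρ ^ 2))) ∧
    ∫ t, wt δ T c m v τ t * ∑' ρ : ZS, mx ρ * (if |(ρ : ℂ).re - 1 / 2| < 1 / 64 then 0 else
      1 / (1 + zb (XX T M) (t + u) ρ ^ 2)) ≤ T ^ (-(1 / 2000) : ℝ) * VV δ T c m v :=
    Pool.Agent.Helper36.X.H53.mDeep hδ hδ1

/-- Z8: from Z3-Z7; all kernel scales (`√m ≥ √c0 log c`, `M ≤ 2c`) -/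
theorem far_mean (hδ : 0 < δ) (hδ1 : δ ≤ 1 / 32) : ∃ C1 c0 T0 : ℝ, 1 ≤ C1 ∧ ∀ T c m v : ℝ, T0 ≤ T → Adm c0 T c m →
    |v| ≤ vv δ c m →
    ∀ M τ u : ℝ, m ≤ M → M ≤ 2 * c → |τ| ≤ 2 * T → |u| ≤ T / 4 →
    Integrable (fun t => wt δ T c m v τ t * far T M (C1 * √m) (t + u)) ∧
    ∫ t, wt δ T c m v τ t * far T M (C1 * √m) (t + u) ≤ VV δ T c m v :=
    Pool.Agent.Helper87.UX.far_mean_of Pool.Agent.Helper66.UW.chain (mGY hδ hδ1) (mLast hδ hδ1) (mDeep hδ hδ1)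
      Pool.Agent.Helper64.UG.tail (rr_bd hδ hδ1)

/-- K5: main term, all kernel scales, with the error `M/log T` (`MM_main` has the error `C/X`) -/
theorem mMM (hδ : 0 < δ) (hδ1 : δ ≤ 1 / 32) : ∃ C c0 T0 : ℝ, 0 < C ∧ ∀ T c m v : ℝ, T0 ≤ T → Adm c0 T c m →
    |v| ≤ vv δ c m →
    ∀ M τ u : ℝ, m ≤ M → M ≤ 2 * c → T ≤ τ → τ ≤ 2 * T → |u| ≤ √T →
    Integrable (fun t => wt δ T c m v τ t * |MM (XX T M) (t + u) - M|) ∧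
    ∫ t, wt δ T c m v τ t * |MM (XX T M) (t + u) - M| ≤ C * (M / Real.log T) * VV δ T c m v :=
    Pool.Agent.Helper36.X.H57.mMM_of (rr_bd hδ hδ1) (m4 hδ hδ1) (wmass hδ hδ1)

/-- K6: from K3-K5, Z8, R11 -/
theorem nx_dev (hδ : 0 < δ) (hδ1 : δ ≤ 1 / 32) : ∃ C c0 T0 : ℝ, 0 < C ∧ ∀ T c m v : ℝ, T0 ≤ T → Adm c0 T c m →
    |v| ≤ vv δ c m →
    ∀ M τ u : ℝ, m ≤ M → M ≤ 2 * c → T ≤ τ → τ ≤ 2 * T → |u| ≤ √T →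
    Integrable (fun t => wt δ T c m v τ t * |NX (XX T M) (t + u) - M + SS (XX T M) (t + u)|) ∧
    ∫ t, wt δ T c m v τ t * |NX (XX T M) (t + u) - M + SS (XX T M) (t + u)| ≤ C * VV δ T c m v :=
    Pool.Agent.Helper36.X.H69.nx_dev_of (far_mean hδ hδ1) (mMM hδ hδ1) (vSS hδ hδ1) (wmass hδ hδ1) (rr_bd hδ hδ1)

/-- K6e: the count averaged over the window, from K3e, K4, K5, Z8, R11 -/
theorem wavg (hδ : 0 < δ) (hδ1 : δ ≤ 1 / 32) : ∃ C c0 T0 : ℝ, 0 < C ∧ ∀ T c m v : ℝ, T0 ≤ T → Adm c0 T c m →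
    |v| ≤ vv δ c m → ∀ τ : ℝ, T ≤ τ → τ ≤ 2 * T →
    Integrable (fun t => wt δ T c m v τ t *
      |XX T m / (2 * Real.pi) * (∫ w in (-(HH T c))..(HH T c), NX (XX T m) (t + w)) - c + WS T c m t|) ∧
    ∫ t, wt δ T c m v τ t *
      |XX T m / (2 * Real.pi) * (∫ w in (-(HH T c))..(HH T c), NX (XX T m) (t + w)) - c + WS T c m t| ≤
        C * VV δ T c m v :=
    Pool.Agent.Helper36.X.H69.wavg_of (far_mean hδ hδ1) (mMM hδ hδ1) (vSS hδ hδ1) (wmass hδ hδ1) (rr_bd hδ hδ1)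

/-- T2: moments of the prime sum under the weight (all coefficients of `R P^k` at `n` have the sign of
`∏ rp^(a_p)`; they are at most `k!/s^k` times the coefficient of `∏ (1 + |rp| x) exp(s |rp| x)`; `VV_exp`; `C` may depend on `δ`) -/
theorem pmom (hδ : 0 < δ) (hδ1 : δ ≤ 1 / 32) : ∃ C c0 T0 : ℝ, 0 < C ∧ ∀ T c m v : ℝ, T0 ≤ T → Adm c0 T c m →
    |v| ≤ vv δ c m → ∀ (s τ : ℝ) (k : ℕ), 0 < s → s ≤ 1 → (k : ℝ) ≤ 4 * m →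
    Integrable (fun t => wt δ T c m v τ t * ‖PP1 δ T c m v t‖ ^ (2 * k)) ∧
    ∫ t, wt δ T c m v τ t * ‖PP1 δ T c m v t‖ ^ (2 * k) ≤
      C * (k.factorial / s ^ k) ^ 2 * Real.exp ((2 * s + s ^ 2) * KK δ T c m v) * VV δ T c m v :=
    Pool.Agent.Helper36.X.H26.pmom hδ hδ1

/-- T3 (`n = p² n'`, `n'` squarefree: `p` is unique; `∑ rp⁴/p² ≤ 2 v⁴/(log T)^60`) -/
theorem p2mom (hδ : 0 < δ) (hδ1 : δ ≤ 1 / 32) : ∃ c0 T0 : ℝ, ∀ T c m v : ℝ, T0 ≤ T → Adm c0 T c m → |v| ≤ vv δ c m →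
    ∀ τ : ℝ, Integrable (fun t => wt δ T c m v τ t * ‖PP2 δ T c m v t‖ ^ 2) ∧
    ∫ t, wt δ T c m v τ t * ‖PP2 δ T c m v t‖ ^ 2 ≤ VV δ T c m v / c ^ 4 :=
    Pool.Agent.Helper36.X.H21.p2mom_of hδ hδ1 (rr_bd hδ hδ1) (Pool.Agent.Helper7.UW.PR_facts hδ hδ1)

end Pool.Agent.Helper36.X
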