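import Pool.Agent.Helper7.UW.R3

/-!
# UW R5
-/

set_option autoImplicit false
open MeasureTheory Set Filter Topology
open Pool.Agent.Helper69.UV (ww)
open Pool.Agent.Helper69.UW

namespace Pool.Agent.Helper36.X.H7

open Pool.Agent.Helper7.UW

lemma abs_rp_le (T c v : ℝ) (p : ℕ) : |rp T c v p| ≤ |v| := by
  unfold rp sw
  rw [abs_mul]
  exact mul_le_of_le_one_right (abs_nonneg _) (Real.abs_sin_le_one _)

/-- R5, from `VV_exp`. -/
theorem prod_le_VV_of {δ : ℝ} (hδ : 0 < δ) (hδ1 : δ ≤ 1 / 32)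
    (hV : ∃ c0 T0 : ℝ, ∀ T c m v : ℝ, T0 ≤ T → Adm c0 T c m → |v| ≤ vv δ c m →
      Real.exp (KK δ T c m v) / 2 ≤ VV δ T c m v ∧ VV δ T c m v ≤ Real.exp (KK δ T c m v)) :
    ∃ C c0 T0 : ℝ, 0 < C ∧ ∀ T c m v : ℝ, T0 ≤ T → Adm c0 T c m → |v| ≤ vv δ c m →
    ∏ p ∈ PR δ T c m, (1 + (2 + |rp T c v p|) ^ 2 / p + 2 * (2 + 2 * |rp T c v p|) ^ 2 / p ^ 2) ≤
      C * Real.exp (C * √m) * VV δ T c m v := by
  obtain ⟨c1, T1, hV⟩ := hV
  obtain ⟨c3, T3, h3⟩ := PR_facts hδ hδ1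
  refine ⟨60, max (max c1 c3) (Real.exp 1), max (max T1 T3) (Real.exp (Real.exp 4)), by norm_num,
    fun T c m v hT hadm hv => ?_⟩
  simp only [max_le_iff] at hT
  obtain ⟨⟨hTT1, hTT3⟩, hT4⟩ := hT
  have hTe : Real.exp (Real.exp 1) ≤ T := by
    refine le_trans ?_ hT4
    apply Real.exp_le_exp.2
    apply Real.exp_le_exp.2
    norm_num
  have hadm1 : Adm c1 T c m := hadm.mono ((le_max_left _ _).trans (le_max_left _ _))
  have hadm3 : Adm c3 T c m := hadm.mono ((le_max_right _ _).trans (le_max_left _ _))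
  have hadme : Adm (Real.exp 1) T c m := hadm.mono (le_max_right _ _)
  have he : 1 < Real.exp 1 := Real.one_lt_exp_iff.2 one_pos
  have hl1 : 1 ≤ ll c m := by
    have := hadme.log_le_ll (Real.exp_pos _)
    rwa [Real.log_exp] at this
  obtain ⟨hT1', hc, hm, hlog, hll, hL64⟩ := adm_small hTe hadm
  obtain ⟨hV, -⟩ := hV T c m v hTT1 hadm1 hv
  obtain ⟨hP, -, hS⟩ := h3 T c m hTT3 hadm3
  have hm1 : 1 ≤ m := hadm.2.1
  have hs0 : 1 ≤ √m := Real.one_le_sqrt.2 hm1
  have hss : √m * √m = m := Real.mul_self_sqrt hm.le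
  have hvm : |v| * ll c m ≤ 6 * √m := by
    have := hv.trans (vv_le hδ hδ1 hadme he)
    rwa [le_div_iff₀ (by linarith)] at this
  have hvm2 : |v| ≤ 6 * √m := by
    have : |v| * 1 ≤ |v| * ll c m := mul_le_mul_of_nonneg_left hl1 (abs_nonneg _)
    linarith
  have hlm : ll c m ≤ √m := by
    have h1 := hadme.log_le_sqrt (Real.exp_pos _).le
    have h2 : 1 ≤ √(Real.exp 1) := Real.one_le_sqrt.2 he.le
    have h3 := hadme.ll_le
    have h4 := hadme.one_le_log
    have h5 : 1 * Real.log c ≤ √(Real.exp 1) * Real.log c := mul_le_mul_of_nonneg_right h2 (by linarith)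
    linarith
  have hlogT : Real.exp 4 ≤ Real.log T := by
    rw [Real.le_log_iff_exp_le (by linarith)]
    exact hT4
  have hlogT16 : 16 ≤ Real.log T := by
    refine le_trans ?_ hlogT
    have h1 : Real.exp 4 = Real.exp 1 ^ 4 := by
      rw [← Real.exp_nat_mul]
      norm_num
    rw [h1]
    have h2 := Real.exp_one_gt_d9
    calc (16:ℝ) = 2 ^ 4 := by norm_num
      _ ≤ Real.exp 1 ^ 4 := pow_le_pow_left₀ (by norm_num) (by linarith) 4
  have hmlog : m ≤ Real.log T := by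
    have h1 := hadme.m_le_c he.le
    have h2 : c ≤ Real.log T := by
      have h5 := hadm.2.2.2.2
      have h6 : 64 * (c * 1) ≤ 64 * (c * Real.log (Real.log T)) := by gcongr
      linarith
    linarith
  have hVV0 : 0 ≤ VV δ T c m v := by
    unfold VV
    positivity
  have hpt : ∀ p ∈ PR δ T c m, 1 + (2 + |rp T c v p|) ^ 2 / p + 2 * (2 + 2 * |rp T c v p|) ^ 2 / (p : ℝ) ^ 2 ≤
      Real.exp (rp T c v p ^ 2 / p + (36 + 4 * |v|) * (1 / p)) := by
    intro p hp
    obtain ⟨hpp, hpl, -, -, -⟩ := hP p hp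
    have hp0 : (0:ℝ) < p := by exact_mod_cast hpp.pos
    have hr := abs_rp_le T c v p
    set r := |rp T c v p| with hrdef
    have hr0 : 0 ≤ r := abs_nonneg _
    have hrs : r ≤ 6 * √m := hr.trans hvm2
    have hsq : rp T c v p ^ 2 = r ^ 2 := by rw [hrdef, sq_abs]
    have hcp : 16 * m ≤ p := by
      calc 16 * m ≤ Real.log T * Real.log T := by
            apply mul_le_mul hlogT16 hmlog hm.le (by linarith)
        _ = Real.log T ^ 2 := by ring
        _ ≤ Real.log T ^ 4 := pow_le_pow_right₀ (by linarith) (by norm_num)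
        _ ≤ p := hpl.le
    have h8 : 2 * (2 + 2 * r) ^ 2 / (p : ℝ) ^ 2 ≤ 32 * (1 / p) := by
      rw [mul_one_div, div_le_div_iff₀ (by positivity) hp0]
      have h9 : (2 + 2 * r) ^ 2 ≤ 196 * m := by nlinarith
      nlinarith
    have h10 : (2 + r) ^ 2 / p = r ^ 2 / p + (4 + 4 * r) * (1 / p) := by
      field_simp
      ring
    have h13 : 4 * r * (1 / (p : ℝ)) ≤ 4 * |v| * (1 / p) := by gcongr
    rw [hsq]
    refine le_trans ?_ (Real.add_one_le_exp _)
    rw [h10]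
    nlinarith
  calc ∏ p ∈ PR δ T c m, (1 + (2 + |rp T c v p|) ^ 2 / p + 2 * (2 + 2 * |rp T c v p|) ^ 2 / (p : ℝ) ^ 2)
      ≤ ∏ p ∈ PR δ T c m, Real.exp (rp T c v p ^ 2 / p + (36 + 4 * |v|) * (1 / p)) :=
        Finset.prod_le_prod (fun p _ => by positivity) hpt
    _ = Real.exp (KK δ T c m v) * Real.exp ((36 + 4 * |v|) * ∑ p ∈ PR δ T c m, (1 / p : ℝ)) := by
        rw [← Real.exp_sum, Finset.sum_add_distrib, Real.exp_add, ← Finset.mul_sum]
        rfl
    _ ≤ (2 * VV δ T c m v) * Real.exp (60 * √m) := by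
        apply mul_le_mul (by linarith) _ (Real.exp_pos _).le (by positivity)
        apply Real.exp_le_exp.2
        calc (36 + 4 * |v|) * ∑ p ∈ PR δ T c m, (1 / p : ℝ) ≤ (36 + 4 * |v|) * ll c m := by gcongr
          _ = 36 * ll c m + 4 * (|v| * ll c m) := by ring
          _ ≤ 36 * √m + 4 * (6 * √m) := by gcongr
          _ = 60 * √m := by ring
    _ = 2 * Real.exp (60 * √m) * VV δ T c m v := by ring
    _ ≤ _ := by
        gcongr
        norm_num

end Pool.Agent.Helper36.X.H7
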